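import Pool.Agent.Q260.DS.All5
import Pool.Agent.Q240.GS.Fam

/-!
# Backlund's criterion for one derivative: the Grand Lindelof Hypothesis for `GL(m)`

`π` runs through the L-functions of cuspidal automorphic representations of `GL_m(𝔸_ℚ)` (`CuspidalL m`) with
archimedean parameters bounded by `M` and arbitrary conductor, `q(T) = N ∏ (1 + |i T - μ_j|)` is the analytic conductor
at the height `T`.  Let `Ξ(s) = N^(s/2) Λ(s, π)` and `F = (d/ds - c_1) ⋯ (d/ds - c_k) Ξ` with real `c_i`, `|c_i| ≤ A`,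
for instance the derivative `Ξ^(k)`.

The zeros of `Ξ^(k)` move to the critical line as `k` grows.  Nevertheless, for every single `k`, the Grand Lindelof
Hypothesis holds for a set of `π` if and only if, uniformly in these `π`, the function `F` has `o(log q(T))` zeros with
`Re s ≥ 1/2 + ε` and `|Im s - T| ≤ 1` as `q(T) → ∞`.  The same is proved on each line `Re s = σ`, `1/2 ≤ σ < 1`, and
locally in `T`.  For `k = 0` and the zeta function this is Backlund's criterion.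

Idea: if `G = F' - c F` has few zeros to the right of `σ`, then it is there at most `q^(o(1))` times the gamma factor
(Blaschke product, Borel-Caratheodory, three circles); integration along VERTICAL rays upwards (the gamma factor decays
exponentially) gives the same bound for `F`, and so on down to `Ξ`.  Conversely Cauchy's estimate with the radius
`1 / log q` and Jensen's formula.
-/

set_option autoImplicit false

open Complex
open scoped ComplexConjugate

namespace Pool.Agent.Results.MP_52e316_nt.BacklundOneDerivative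

/-- Analytic data of a cuspidal automorphic representation of `GL_m(𝔸_ℚ)` (not the trivial one for
`m = 1`), normalised as in the problem: conductor `N`, archimedean parameters `μ_j` with `Re μ_j ≤ 1/2` and
`∑ Im μ_j = 0` (the central character is trivial on the positive reals), Satake parameters
`|α_j(p)| ≤ √p`, root number `ε`, and the entire completed L-function `Λ` (gamma factors times Euler product
for `Re s > 3/2`) with the functional equation, finite order in vertical strips and no zeros in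
`Re s > 1` (all known: Godement-Jacquet, Jacquet-Shalika). -/
structure CuspidalL (m : ℕ) where
  /-- the conductor -/
  N : ℝ
  /-- the archimedean parameters -/
  μ : Fin m → ℂ
  /-- the Satake parameters -/
  α : Fin m → ℕ → ℂ
  /-- the root number -/
  ε : ℂ
  /-- the completed L-function -/
  Λ : ℂ → ℂ
  one_le : 1 ≤ N
  re_le : ∀ j, (μ j).re ≤ 1 / 2
  normalised : ∑ j, (μ j).im = 0
  norm_le : ∀ j, ∀ p : ℕ, p.Prime → ‖α j p‖ ≤ Real.sqrt p
  norm_eq : ‖ε‖ = 1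
  entire : Differentiable ℂ Λ
  euler : ∀ s : ℂ, 3 / 2 < s.re → Λ s = (∏ j, Gammaℝ (s - μ j)) *
    ∏' p : Nat.Primes, ∏ j, (1 - α j p * (p : ℂ) ^ (-s))⁻¹
  fe : ∀ s : ℂ, Λ s = ε * (N : ℂ) ^ (1 / 2 - s) * conj (Λ (1 - conj s))
  bdd : ∀ a b : ℝ, ∃ M, ∀ s : ℂ, a ≤ s.re → s.re ≤ b → ‖Λ s‖ ≤ Real.exp (M * (1 + |s.im|))
  ne_zero : ∀ s : ℂ, 1 < s.re → Λ s ≠ 0

variable {m : ℕ}

/-- The L-function `L(s, π) = Λ(s, π) / ∏ Γ_ℝ(s - μ_j)`. -/
noncomputable def L (π : CuspidalL m) (s : ℂ) : ℂ := π.Λ s * ∏ j, (Gammaℝ (s - π.μ j))⁻¹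

/-- The analytic conductor `C_π = N ∏ (1 + |μ_j|)`. -/
noncomputable def C (π : CuspidalL m) : ℝ := π.N * ∏ j, (1 + ‖π.μ j‖)

/-- The analytic conductor at the height `t`: `C_π(t) = N ∏ (1 + |i t - μ_j|)`. -/
noncomputable def Ct (π : CuspidalL m) (t : ℝ) : ℝ := π.N * ∏ j, (1 + ‖(t : ℂ) * I - π.μ j‖)

/-- The Lindelof bound on the line `Re s = σ` for the `π` in `Fam`; for `σ = 1/2` this is the Grand Lindelof
Hypothesis for the `π` in `Fam`. -/
def LindelofOn (Fam : CuspidalL m → Prop) (σ : ℝ) : Prop :=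
  ∀ ε : ℝ, 0 < ε → ∃ B : ℝ, ∀ π : CuspidalL m, Fam π → ∀ t : ℝ,
    ‖L π (σ + (t : ℂ) * I)‖ ≤ B * ((1 + |t|) * C π) ^ ε

/-- The symmetric completed L-function `Ξ(s) = N^(s/2) Λ(s, π)`. -/
noncomputable def Ξ (π : CuspidalL m) (s : ℂ) : ℂ := (π.N : ℂ) ^ (s / 2) * π.Λ s

/-- `(d/ds - c_1) ⋯ (d/ds - c_k) f`. -/
noncomputable def Dif (f : ℂ → ℂ) : List ℝ → ℂ → ℂ
  | [] => f
  | c :: cs => fun s => deriv (Dif f cs) s - (c : ℂ) * Dif f cs s

/-- For `c_1 = ... = c_k = 0` this is the `k`-th derivative. -/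
theorem Dif_zero (f : ℂ → ℂ) (k : ℕ) : Dif f (List.replicate k 0) = iteratedDeriv k f := by
  induction k with
  | zero => rw [List.replicate_zero, iteratedDeriv_zero]; rfl
  | succ k ih =>
    rw [List.replicate_succ, iteratedDeriv_succ, ← ih]
    funext s
    show deriv (Dif f (List.replicate k 0)) s - ((0 : ℝ) : ℂ) * _ = _
    rw [ofReal_zero, zero_mul, sub_zero]

/-- The archimedean parameters of `π` are bounded by `M`. -/
def Bounded (M : ℝ) (π : CuspidalL m) : Prop := ∀ j, ‖π.μ j‖ ≤ M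

/-- A list of `k` real numbers bounded by `A`. -/
def Shifts (A : ℝ) (k : ℕ) (cs : List ℝ) : Prop := cs.length = k ∧ ∀ c ∈ cs, |c| ≤ A

/-- `G` is not identically zero, and has at most `x` zeros, counted with multiplicity, with `a ≤ Re s ≤ 5/2` and
`|Im s - T| ≤ 1`. -/
def AtMost (G : ℂ → ℂ) (a T x : ℝ) : Prop := (∃ s, G s ≠ 0) ∧ ∀ Z : Finset ℂ,
  (∀ z ∈ Z, G z = 0 ∧ a ≤ z.re ∧ z.re ≤ 5 / 2 ∧ |z.im - T| ≤ 1) → ∑ z ∈ Z, (analyticOrderNatAt G z : ℝ) ≤ x

open Pool.Agent.W169.HF Q240.GS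

lemma ob (π : CuspidalL m) : Q240.GS.Ob π.N π.μ π.Λ :=
  ⟨π.α, π.ε, { one_le := π.one_le
               re_le := π.re_le
               norm_le := fun j p hp => by
                 rw [← Real.sqrt_eq_rpow]
                 exact π.norm_le j p hp
               norm_eq := π.norm_eq
               entire := π.entire
               euler := fun s hs => π.euler s (by linarith)
               fe := π.fe
               bdd := π.bdd }, π.ne_zero⟩

lemma rpow_exp {x : ℝ} (hx : 1 ≤ x) (a : ℝ) : x ^ a = Real.exp (a * Real.log x) := by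
  rw [Real.rpow_def_of_pos (by linarith), mul_comm]

lemma Ct_one (π : CuspidalL m) (t : ℝ) : 1 ≤ Ct π t := cnd_pos π.one_le π.μ t

lemma log_ge (π : CuspidalL m) {c t : ℝ} (h : Real.exp c ≤ Ct π t) : c ≤ Real.log (Ct π t) := by
  have := Real.log_le_log (Real.exp_pos _) h
  rwa [Real.log_exp] at this

lemma ge_of_log (π : CuspidalL m) {c t : ℝ} (h : Real.log (max c 1) ≤ Real.log (Ct π t)) : c ≤ Ct π t := by
  have h1 : 0 < max c 1 := lt_max_of_lt_right one_pos
  have h2 := Ct_one π t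
  exact (le_max_left _ _).trans ((Real.log_le_log_iff h1 (by linarith)).1 h)

lemma near (π : CuspidalL m) {y T W : ℝ} (hW : 0 ≤ W) (h : |T - y| ≤ W) :
    Real.log (Ct π y) ≤ Real.log (Ct π T) + m * Real.log (1 + W) := by
  have h1 := logm_shift π.one_le π.μ (y := y) (y' := T) (R := W) (h.trans (le_abs_self W))
  rwa [abs_of_nonneg hW] at h1

lemma C_one (π : CuspidalL m) (t : ℝ) : 1 ≤ (1 + |t|) * C π := by
  have h1 : 1 ≤ ∏ j, (1 + ‖π.μ j‖) := by
    refine Finset.prod_induction _ (fun x => (1 : ℝ) ≤ x) (fun a b ha hb => ?_) le_rfl fun j _ => ?_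
    · nlinarith
    · linarith [norm_nonneg (π.μ j)]
  have h2 : 1 ≤ C π := by
    unfold C
    have := π.one_le
    nlinarith
  have := abs_nonneg t
  nlinarith

lemma pt (σ t : ℝ) : (σ : ℂ) + (t : ℂ) * I = (⟨σ, t⟩ : ℂ) := by
  apply Complex.ext <;> simp

/-- the bound in terms of the conductor at height `t` -/
lemma lind_iff (hm : 1 ≤ m) (Fam : CuspidalL m → Prop) {σ : ℝ} (h1 : 1 / 2 ≤ σ) (h2 : σ ≤ 1) :
    LindelofOn Fam σ ↔ ∀ κ : ℝ, 0 < κ → ∃ C₀ : ℝ,
    ∀ π : CuspidalL m, Fam π → ∀ t : ℝ, C₀ ≤ Real.log (Ct π t) →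
      ‖L π (⟨σ, t⟩ : ℂ)‖ ≤ Real.exp (κ * Real.log (Ct π t)) := by
  have hm' : (1 : ℝ) ≤ m := by exact_mod_cast hm
  constructor
  · intro h κ hκ
    obtain ⟨B, HB⟩ := h (κ / (2 * (m + 2))) (by positivity)
    refine ⟨2 * Real.log (max B 1) / κ, fun π hP t hC => ?_⟩
    have hB : 0 < max B 1 := lt_max_of_lt_right one_pos
    have h3 := HB π hP t
    rw [pt] at h3
    refine h3.trans ?_
    rw [rpow_exp (C_one π t)]
    have h0 : B * Real.exp (κ / (2 * (m + 2)) * Real.log ((1 + |t|) * C π)) ≤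
        Real.exp (Real.log (max B 1)) * Real.exp (κ / (2 * (m + 2)) * Real.log ((1 + |t|) * C π)) := by
      rw [Real.exp_log hB]
      exact mul_le_mul_of_nonneg_right (le_max_left _ _) (Real.exp_pos _).le
    refine h0.trans ?_
    rw [← Real.exp_add]
    apply Real.exp_le_exp.2
    have h1 := (cnd_norm π.one_le π.μ hm π.normalised t).1
    change Real.log ((1 + |t|) * C π) ≤ (m + 2) * Real.log (Ct π t) at h1
    have h2 : κ / (2 * (m + 2)) * Real.log ((1 + |t|) * C π) ≤ κ / 2 * Real.log (Ct π t) := by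
      calc _ ≤ κ / (2 * (m + 2)) * ((m + 2) * Real.log (Ct π t)) := mul_le_mul_of_nonneg_left h1 (by positivity)
        _ = _ := by field_simp
    rw [div_le_iff₀ hκ] at hC
    linarith
  · intro h ε hε
    obtain ⟨C₀, hC₀⟩ := h (ε / m) (by positivity)
    obtain ⟨B, hB0, HB⟩ := triv_L (m := m) hm
    obtain ⟨C1, hC1⟩ : ∃ C1 : ℝ, C1 = max C₀ 0 := ⟨_, rfl⟩
    have hC10 : 0 ≤ C1 := by rw [hC1]; exact le_max_right _ _
    refine ⟨Real.exp (B + C1), fun π hP t => ?_⟩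
    rw [rpow_exp (C_one π t), ← Real.exp_add, pt]
    have hlog := Real.log_nonneg (Ct_one π t)
    have hlogC := Real.log_nonneg (C_one π t)
    rcases le_or_gt C₀ (Real.log (Ct π t)) with h1 | h1
    · refine (hC₀ π hP t h1).trans (Real.exp_le_exp.2 ?_)
      have h2 := (cnd_norm π.one_le π.μ hm π.normalised t).2
      change Real.log (Ct π t) ≤ (m : ℝ) * Real.log ((1 + |t|) * C π) at h2
      have h3 : ε / m * Real.log (Ct π t) ≤ ε * Real.log ((1 + |t|) * C π) := by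
        calc _ ≤ ε / m * (m * Real.log ((1 + |t|) * C π)) := mul_le_mul_of_nonneg_left h2 (by positivity)
          _ = _ := by field_simp
      linarith
    · refine (HB π.N π.μ π.Λ (ob π) σ t (by linarith) (by linarith)).trans (Real.exp_le_exp.2 ?_)
      change B + Real.log (Ct π t) ≤ _
      have h2 : C₀ ≤ C1 := by rw [hC1]; exact le_max_left _ _
      have h4 : 0 ≤ ε * Real.log ((1 + |t|) * C π) := by positivity
      linarith


section

open Pool.Agent.Q260.DS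

lemma obD (π : CuspidalL m) : Pool.Agent.Q260.DS.Ob π.N π.μ π.Λ := ob π

lemma dif_eq (f : ℂ → ℂ) (cs : List ℝ) : Dif f cs = It f cs := by
  induction cs with
  | nil => rfl
  | cons c cs ih =>
    funext s
    show deriv (Dif f cs) s - (c : ℂ) * Dif f cs s = deriv (It f cs) s - (c : ℂ) * It f cs s
    rw [ih]

lemma xi_eq (π : CuspidalL m) : Ξ π = XX π.N π.Λ := rfl

lemma q_eq (π : CuspidalL m) : Ct π = Q240.GS.cnd π.N π.μ := rfl

/-- `F` is not identically zero -/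
lemma F_ne0 (hm : 1 ≤ m) {M A : ℝ} (hM : 0 ≤ M) (hA : 1 ≤ A) (k : ℕ) : ∃ C : ℝ, ∀ π : CuspidalL m, Bounded M π →
    ∀ cs : List ℝ, Li A k cs → ∀ T : ℝ, C ≤ Real.log (Ct π T) → ∃ s, Dif (Ξ π) cs s ≠ 0 := by
  obtain ⟨K, A', hK, hA', hS⟩ := sy m M 0 hm hM le_rfl
  obtain ⟨C, hC, H⟩ := rt K (max A A') 2 3 k hK (hA.trans (le_max_left _ _)) (by norm_num)
  refine ⟨2 * C + 14 * m, fun π hπ cs hcs T hT => ?_⟩
  have hS' := Pool.Agent.Q251.DS.F1.sys_mono hA' (le_max_right A A') (hS π.N π.μ π.Λ (obD π) hπ)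
  have hcs' := Pool.Agent.Q251.DS.F1.li_mono (le_max_left A A') hcs
  have hel := (el_bd π.one_le π.re_le T).1
  rw [q_eq] at hT
  have h1 := (H _ _ _ _ hS' cs hcs' 2 T (by linarith) le_rfl (by norm_num)).1
  rw [Pool.Agent.Q251.DS.F1.It_shift] at h1
  exact ⟨_, by rw [dif_eq, xi_eq]; exact h1⟩

lemma near2 (m : ℕ) (C : ℝ) (hC : 0 ≤ C) : ∃ X' : ℝ, 1 ≤ X' ∧ ∀ (π : CuspidalL m) (y T : ℝ),
    X' ≤ Real.log (Ct π T) → |y - T| ≤ C * Real.log (Ct π T) →
    Real.log (Ct π y) ≤ 2 * Real.log (Ct π T) ∧ Real.log (Ct π T) ≤ 2 * Real.log (Ct π y) := by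
  obtain ⟨x0, hx0, H⟩ := log_lin 0 (2 * m) C (by positivity) hC
  refine ⟨x0, hx0, fun π y T h1 h2 => ?_⟩
  have h3 : 0 ≤ C * Real.log (Ct π T) := mul_nonneg hC (by linarith)
  have h4 := near π h3 (y := T) (T := y) h2
  have h5 := near π h3 (y := y) (T := T) (by rw [abs_sub_comm]; exact h2)
  have h6 := H _ h1
  constructor <;> linarith

lemma fewmono {G : ℂ → ℂ} {a a' T x x' : ℝ} (h : FewL G a T x) (ha : a ≤ a') (hx : x ≤ x') : FewL G a' T x' :=
  fun Z hZ => (h Z fun z hz => ⟨(hZ z hz).1, ha.trans (hZ z hz).2.1, (hZ z hz).2.2⟩).trans hx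

/-- few zeros of one `F` near `T` give the bound for `L` at the height `T` -/
lemma dirA (hm : 1 ≤ m) {M A : ℝ} (hM : 0 ≤ M) (hA : 1 ≤ A) (k : ℕ) {σ : ℝ} (hσ : 1 / 2 ≤ σ) (hσ1 : σ < 1)
    {ε : ℝ} (hε : 0 < ε) : ∃ η C : ℝ, 0 < η ∧ 1 ≤ C ∧ ∀ π : CuspidalL m, Bounded M π → ∀ cs : List ℝ, Li A k cs →
      ∀ T : ℝ, C ≤ Real.log (Ct π T) → (∀ y : ℝ, |y - T| ≤ C * Real.log (Ct π T) →
        FewL (Dif (Ξ π) cs) (σ + η) y (η * Real.log (Ct π T))) →
      ‖L π (σ + (T : ℂ) * I)‖ ≤ Real.exp (ε * Real.log (Ct π T)) := by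
  obtain ⟨δ, h, C1, hδ, hh, hC1, H1⟩ := (gl m σ hm hσ hσ1).1 ε hε
  obtain ⟨d, hd⟩ : ∃ d : ℝ, d = min δ (1 - σ) := ⟨_, rfl⟩
  have hd0 : 0 < d := by rw [hd]; exact lt_min hδ (by linarith)
  have hdδ : d ≤ δ := by rw [hd]; exact min_le_left _ _
  have hdσ : d ≤ 1 - σ := by rw [hd]; exact min_le_right _ _
  obtain ⟨e, C2, he, hC2, H2⟩ := f2 m k M A (d / 2) (d / 2) hm hM hA (by linarith) (by linarith) (by linarith)
  obtain ⟨X, hX1, HX⟩ := near2 m h hh.le
  obtain ⟨C, hC⟩ : ∃ C : ℝ, C = C1 + 2 * C2 + X + h + 1 := ⟨_, rfl⟩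
  have hC0 : 1 ≤ C := by rw [hC]; linarith
  refine ⟨min (d / 2) (e / 2), C, lt_min (by linarith) (by linarith), hC0, fun π hπ cs hcs T hT hZ => ?_⟩
  have hm0 : min (d / 2) (e / 2) ≤ d / 2 := min_le_left _ _
  have hm1 : min (d / 2) (e / 2) ≤ e / 2 := min_le_right _ _
  have hT1 : 1 ≤ Real.log (Ct π T) := hC0.trans hT
  refine H1 π.N π.μ π.Λ (obD π) T (by rw [← q_eq]; linarith) fun y hy => ?_
  have hy' : |y - T| ≤ h * Real.log (Ct π T) := hy.trans (by nlinarith)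
  obtain ⟨n1, n2⟩ := HX π y T (by linarith) hy'
  have hfew := (H2 π.N π.μ π.Λ (obD π) hπ cs hcs y (σ + d / 2) (by rw [← q_eq]; linarith) (by linarith)
    (by linarith)).1 fun y' hy1 => ?_
  · rw [← q_eq] at hfew ⊢
    refine fewmono hfew (by linarith) ?_
    calc d / 2 * Real.log (Ct π y) ≤ d / 2 * (2 * Real.log (Ct π T)) :=
          mul_le_mul_of_nonneg_left n1 (by linarith)
      _ = d * Real.log (Ct π T) := by ring
      _ ≤ δ * Real.log (Ct π T) := mul_le_mul_of_nonneg_right hdδ (by linarith)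
  · rw [← q_eq] at hy1 ⊢
    have h5 := hZ y' ?_
    · rw [dif_eq, xi_eq] at h5
      refine fewmono h5 (by linarith) ?_
      calc min (d / 2) (e / 2) * Real.log (Ct π T) ≤ e / 2 * (2 * Real.log (Ct π y)) :=
            mul_le_mul hm1 n2 (by linarith) (by linarith)
        _ = e * Real.log (Ct π y) := by ring
    · have h6 : |y' - T| ≤ |y' - y| + |y - T| := abs_sub_le _ _ _
      have h7 : C2 * Real.log (Ct π y) ≤ C2 * (2 * Real.log (Ct π T)) :=
        mul_le_mul_of_nonneg_left n1 (by linarith)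
      have h8 : C * Real.log (Ct π T) = C1 * Real.log (Ct π T) + 2 * C2 * Real.log (Ct π T) +
        X * Real.log (Ct π T) + h * Real.log (Ct π T) + Real.log (Ct π T) := by rw [hC]; ring
      have h9 : 0 ≤ C1 * Real.log (Ct π T) := by positivity
      have h10 : 0 ≤ X * Real.log (Ct π T) := by positivity
      linarith

/-- the bound for `L` near `T` gives few zeros of every `F` near `T` -/
lemma dirB (hm : 1 ≤ m) {M A : ℝ} (hM : 0 ≤ M) (hA : 1 ≤ A) (k : ℕ) {σ : ℝ} (hσ : 1 / 2 ≤ σ) (hσ1 : σ < 1)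
    {ε : ℝ} (hε : 0 < ε) : ∃ η C : ℝ, 0 < η ∧ 1 ≤ C ∧ ∀ π : CuspidalL m, Bounded M π → ∀ cs : List ℝ, Li A k cs →
      ∀ T : ℝ, C ≤ Real.log (Ct π T) → (∀ t : ℝ, |t - T| ≤ C →
        ‖L π (σ + (t : ℂ) * I)‖ ≤ Real.exp (η * Real.log (Ct π t))) →
      FewL (Dif (Ξ π) cs) (σ + ε) T (ε * Real.log (Ct π T)) := by
  obtain ⟨d, hd⟩ : ∃ d : ℝ, d = min ε (1 - σ) := ⟨_, rfl⟩
  have hd0 : 0 < d := by rw [hd]; exact lt_min hε (by linarith)
  have hdε : d ≤ ε := by rw [hd]; exact min_le_left _ _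
  have hdσ : d ≤ 1 - σ := by rw [hd]; exact min_le_right _ _
  obtain ⟨e, C2, he, hC2, H2⟩ := f2 m k M A (d / 2) d hm hM hA (by linarith) (by linarith) (by linarith)
  have hmin : 0 < min (e / 2) (d / 2) := lt_min (by linarith) (by linarith)
  obtain ⟨ε1, h, C1, hε1, hh, hC1, H1⟩ := (gl m σ hm hσ hσ1).2 (min (e / 2) (d / 2)) hmin
  obtain ⟨X, hX1, HX⟩ := near2 m (C2 + h) (by linarith)
  obtain ⟨C, hC⟩ : ∃ C : ℝ, C = 2 * C1 + C2 + X + h + 1 := ⟨_, rfl⟩
  have hC0 : 1 ≤ C := by rw [hC]; linarith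
  refine ⟨ε1 / 4, C, by linarith, hC0, fun π hπ cs hcs T hT hv => ?_⟩
  have hT1 : 1 ≤ Real.log (Ct π T) := hC0.trans hT
  have hfew := (H2 π.N π.μ π.Λ (obD π) hπ cs hcs T (σ + d / 2) (by rw [← q_eq]; linarith) (by linarith)
    (by linarith)).2 fun y hy => ?_
  · rw [← q_eq] at hfew
    rw [dif_eq, xi_eq]
    exact fewmono hfew (by linarith) (mul_le_mul_of_nonneg_right hdε (by linarith))
  · have hy' : |y - T| ≤ (C2 + h) * Real.log (Ct π T) := hy.trans (by nlinarith)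
    obtain ⟨n1, n2⟩ := HX π y T (by linarith) hy'
    have h5 := H1 π.N π.μ π.Λ (obD π) y (by rw [← q_eq]; linarith) fun t ht => ?_
    · rw [← q_eq] at h5 ⊢
      refine fewmono h5 (by linarith [min_le_right (e / 2) (d / 2)]) ?_
      calc min (e / 2) (d / 2) * Real.log (Ct π y) ≤ e / 2 * (2 * Real.log (Ct π T)) :=
            mul_le_mul (min_le_left _ _) n1 (by linarith) (by linarith)
        _ = e * Real.log (Ct π T) := by ring
    · rw [← q_eq]
      have h6 : |t - T| ≤ |t - y| + |y - T| := abs_sub_le _ _ _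
      have h7 : |t - T| ≤ (C2 + h) * Real.log (Ct π T) := by nlinarith
      obtain ⟨n3, n4⟩ := HX π t T (by linarith) h7
      refine (hv t (by linarith)).trans (Real.exp_le_exp.2 ?_)
      have h8 : Real.log (Ct π t) ≤ 4 * Real.log (Ct π y) := by linarith
      calc ε1 / 4 * Real.log (Ct π t) ≤ ε1 / 4 * (4 * Real.log (Ct π y)) :=
            mul_le_mul_of_nonneg_left h8 (by linarith)
        _ = ε1 * Real.log (Ct π y) := by ring

end

/-- **Backlund's criterion for one derivative.** `M` bounds the archimedean parameters, `A` the real numbers `c_j`,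
`F = (d/ds - c_1) ⋯ (d/ds - c_k) Ξ`, `1/2 ≤ σ < 1`. (a) If `F` has few zeros near `T`, then `L(σ + iT)` is small.
(b) If `L(σ + it)` is small near `T`, then every `F` has few zeros near `T`. (c) For every set of `π` and every choice
of ONE `F` for each of them, the Lindelof bound on `Re s = σ` is equivalent to few zeros of these `F`. -/
theorem result (hm : 1 ≤ m) {M A : ℝ} (hM : 0 ≤ M) (hA : 1 ≤ A) (k : ℕ) {σ : ℝ} (hσ : 1 / 2 ≤ σ) (hσ1 : σ < 1) :
    (∀ ε : ℝ, 0 < ε → ∃ η C₀ : ℝ, 0 < η ∧ ∀ π : CuspidalL m, Bounded M π → ∀ cs : List ℝ, Shifts A k cs →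
      ∀ T : ℝ, C₀ ≤ Ct π T → (∀ y : ℝ, |y - T| ≤ C₀ * Real.log (Ct π T) →
        AtMost (Dif (Ξ π) cs) (σ + η) y (η * Real.log (Ct π T))) →
      ‖L π (σ + (T : ℂ) * I)‖ ≤ Ct π T ^ ε) ∧
    (∀ ε : ℝ, 0 < ε → ∃ η C₀ : ℝ, 0 < η ∧ ∀ π : CuspidalL m, Bounded M π → ∀ cs : List ℝ, Shifts A k cs →
      ∀ T : ℝ, C₀ ≤ Ct π T → (∀ t : ℝ, |t - T| ≤ C₀ → ‖L π (σ + (t : ℂ) * I)‖ ≤ Ct π t ^ η) →
      AtMost (Dif (Ξ π) cs) (σ + ε) T (ε * Real.log (Ct π T))) ∧
    (∀ (Fam : CuspidalL m → Prop) (cs : CuspidalL m → List ℝ), (∀ π, Fam π → Bounded M π ∧ Shifts A k (cs π)) →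
      (LindelofOn Fam σ ↔ ∀ ε : ℝ, 0 < ε → ∃ C₀ : ℝ, ∀ π : CuspidalL m, Fam π → ∀ T : ℝ, C₀ ≤ Ct π T →
        AtMost (Dif (Ξ π) (cs π)) (σ + ε) T (ε * Real.log (Ct π T)))) := by
  obtain ⟨C3, H3⟩ := F_ne0 hm hM hA k
  refine ⟨fun ε hε => ?_, fun ε hε => ?_, fun Fam cs hF => ⟨fun h ε hε => ?_, fun h => ?_⟩⟩
  · obtain ⟨η, C, hη, hC, H⟩ := dirA hm hM hA k hσ hσ1 hε
    refine ⟨η, Real.exp C, hη, fun π hπ cs hcs T hT hZ => ?_⟩
    rw [rpow_exp (Ct_one π T)]
    refine H π hπ cs hcs T (log_ge π hT) fun y hy => (hZ y (hy.trans ?_)).2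
    exact mul_le_mul_of_nonneg_right (by linarith [Real.add_one_le_exp C]) (Real.log_nonneg (Ct_one π T))
  · obtain ⟨η, C, hη, hC, H⟩ := dirB hm hM hA k hσ hσ1 hε
    refine ⟨η, Real.exp (max C C3), hη, fun π hπ cs hcs T hT hv => ?_⟩
    have hT' := log_ge π hT
    refine ⟨H3 π hπ cs hcs T ((le_max_right _ _).trans hT'), H π hπ cs hcs T ((le_max_left _ _).trans hT') ?_⟩
    intro t ht
    rw [← rpow_exp (Ct_one π t)]
    exact hv t (ht.trans (by linarith [Real.add_one_le_exp (max C C3), le_max_left C C3]))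
  · obtain ⟨η, C, hη, hC, H⟩ := dirB hm hM hA k hσ hσ1 hε
    obtain ⟨C4, H4⟩ := (lind_iff hm Fam hσ hσ1.le).1 h η hη
    obtain ⟨X, hX1, HX⟩ := near2 m C (by linarith)
    refine ⟨Real.exp (max (max C C3) (max X (2 * C4))), fun π hP T hT => ?_⟩
    have hT' := log_ge π hT
    have t1 := ((le_max_left _ _).trans (le_max_left _ _)).trans hT'
    have t2 := ((le_max_right _ _).trans (le_max_left _ _)).trans hT'
    have t3 := ((le_max_left _ _).trans (le_max_right _ _)).trans hT'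
    have t4 := ((le_max_right _ _).trans (le_max_right _ _)).trans hT'
    refine ⟨H3 π (hF π hP).1 _ (hF π hP).2 T t2, H π (hF π hP).1 _ (hF π hP).2 T t1 fun t ht => ?_⟩
    obtain ⟨n1, n2⟩ := HX π t T t3 (ht.trans (by nlinarith))
    rw [pt]
    exact H4 π hP t (by linarith)
  · refine (lind_iff hm Fam hσ hσ1.le).2 fun κ hκ => ?_
    obtain ⟨η, C, hη, hC, H⟩ := dirA hm hM hA k hσ hσ1 hκ
    obtain ⟨C4, H4⟩ := h (η / 2) (by linarith)
    obtain ⟨X, hX1, HX⟩ := near2 m C (by linarith)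
    refine ⟨max C (max X (2 * Real.log (max C4 1))), fun π hP T hT => ?_⟩
    have t1 := (le_max_left _ _).trans hT
    have t2 := ((le_max_left _ _).trans (le_max_right _ _)).trans hT
    have t3 := ((le_max_right _ _).trans (le_max_right _ _)).trans hT
    rw [← pt]
    refine H π (hF π hP).1 _ (hF π hP).2 T t1 fun y hy => ?_
    obtain ⟨n1, n2⟩ := HX π y T t2 hy
    have h5 := (H4 π hP y (ge_of_log π (by linarith))).2
    refine fewmono h5 (by linarith) ?_
    calc η / 2 * Real.log (Ct π y) ≤ η / 2 * (2 * Real.log (Ct π T)) :=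
          mul_le_mul_of_nonneg_left n1 (by linarith)
      _ = η * Real.log (Ct π T) := by ring


end Pool.Agent.Results.MP_52e316_nt.BacklundOneDerivative
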