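import Pool.Agent.Q97.PA.H

/-!
# The Grand Lindelöf Hypothesis and approximation by exponential polynomials with few terms

`π` runs through the L-functions of cuspidal automorphic representations of `GL_m(𝔸_ℚ)` (`CuspidalL m`),
`C_π(T) = N ∏ (1 + |i T - μ_j|)` is the analytic conductor at the height `T`.

An exponential polynomial of complexity at most `x` is a sum `∑ p_a(t) exp(a t)` over finitely many complex `a`,
`|a| ≤ x`, with polynomials `p_a`, where the sum of all `deg p_a + 1` is at most `x`.  Examples: polynomials of degree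
at most `x - 1`, and Dirichlet polynomials with at most `x` terms `c_k k^(-it)`, `log k ≤ x`, the `c_k` being arbitrary.

Theorem.  Everything is uniform in `π` and `T`; `0 < h ≤ 1`.

(1) For each `ε > 0` there are `ν, R > 0` with the following property.  Let `C_π(T)` be large, and let, for each `y`
with `|y - T| ≤ R`, an exponential polynomial of complexity at most `ν log C_π(T)` approximate `L(1/2 + it, π)` for
`|t - y| ≤ h` up to an error `C_π(T)^ν`, or some derivative of `L(s, π)` of order `n ≤ ν log C_π(T)` be at most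
`n! h^(-n) C_π(T)^ν` there.  Then `|L(1/2 + iT, π)| ≤ C_π(T)^ε`.

(2) For each `ε > 0` there are `ν, R > 0` such that `|L(1/2 + iy, π)| ≤ C_π(T)^ν` for `|y - T| ≤ R` implies
`|L^(n)(1/2 + it, π)| ≤ n! C_π(T)^ε` for all `n ≤ ν log C_π(T)` and `|t - T| ≤ 1`.

(3) Unconditionally, high precision needs a complexity of the order `log C_π(T)`: polynomials of degree
`C log C_π(T)` approximate `L(1/2 + it, π)` for `|t - T| ≤ 1` up to an error `C_π(T)^(-K)` (the derivatives of order at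
least `C log C_π(T)` are at most `n! C_π(T)^(-K)`), but exponential polynomials of complexity `c log C_π(T)` do not:
for some `K`, `c > 0` at all heights, and for each `K > 0`, with some `c > 0`, near each height.

(4) The Grand Lindelöf Hypothesis for a family of `π` is equivalent to the approximation of `L(1/2 + it, π)`,
`|t - T| ≤ h`, by exponential polynomials of complexity `ε log C_π(T)` up to errors `C_π(T)^ε`, for each `ε > 0`.

(5) It is equivalent to `|L^(n)(1/2 + it, π)| ≤ n! C_π(T)^ε`, `|t - T| ≤ 1`, for one `n = n(π, T)`, whatever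
`n(π, T) = o(log C_π(T))` is.

Idea: let the exponential polynomial `g` be near `L` on the segment.  The difference is at most as large as `L` and `g`
in a rectangle, and small on the segment; by the two constants theorem it is smaller near `Re s = 13/8`, where `L` is
`C_π(T)^o(1)`.  So `g` is smaller there, hence in the whole rectangle, as its complexity is small (a bound of Turán's
type), and then `L` is smaller on the segment.  This is repeated, starting from the trivial bound.  For (3): to the left of the strip `L` has the size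
`C_π(T)^(1/2 - Re s)`, much larger than `g`; if the error on the segment were too small, the two constants theorem
would give a contradiction there.
-/

set_option autoImplicit false

open Complex Polynomial
open scoped ComplexConjugate

namespace Pool.Agent.Results.MP_52e316_nt.ExponentialPolynomialsGLm

/-- Analytic data of a cuspidal automorphic representation of `GL_m(𝔸_ℚ)` (not the trivial one for
`m = 1`), normalised as in the problem: conductor `N`, archimedean parameters `μ_j` with `Re μ_j ≤ 1/2` and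
`∑ Im μ_j = 0` (the central character is trivial on the positive reals), Satake parameters
`|α_j(p)| ≤ √p`, root number `ε`, and the entire completed L-function `Λ` (gamma factors times Euler product
for `Re s > 3/2`) with the functional equation, finite order in vertical strips and no zeros in
`Re s > 1` (all known: Godement-Jacquet, Jacquet-Shalika). -/
structure CuspidalL (m : ℕ) where
  /-- the conductor -/
  N : ℝ
  /-- the archimedean parameters -/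
  μ : Fin m → ℂ
  /-- the Satake parameters -/
  α : Fin m → ℕ → ℂ
  /-- the root number -/
  ε : ℂ
  /-- the completed L-function -/
  Λ : ℂ → ℂ
  one_le : 1 ≤ N
  re_le : ∀ j, (μ j).re ≤ 1 / 2
  normalised : ∑ j, (μ j).im = 0
  norm_le : ∀ j, ∀ p : ℕ, p.Prime → ‖α j p‖ ≤ Real.sqrt p
  norm_eq : ‖ε‖ = 1
  entire : Differentiable ℂ Λ
  euler : ∀ s : ℂ, 3 / 2 < s.re → Λ s = (∏ j, Gammaℝ (s - μ j)) *
    ∏' p : Nat.Primes, ∏ j, (1 - α j p * (p : ℂ) ^ (-s))⁻¹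
  fe : ∀ s : ℂ, Λ s = ε * (N : ℂ) ^ (1 / 2 - s) * conj (Λ (1 - conj s))
  bdd : ∀ a b : ℝ, ∃ M, ∀ s : ℂ, a ≤ s.re → s.re ≤ b → ‖Λ s‖ ≤ Real.exp (M * (1 + |s.im|))
  ne_zero : ∀ s : ℂ, 1 < s.re → Λ s ≠ 0

variable {m : ℕ}

/-- The L-function `L(s, π) = Λ(s, π) / ∏ Γ_ℝ(s - μ_j)`. -/
noncomputable def L (π : CuspidalL m) (s : ℂ) : ℂ := π.Λ s * ∏ j, (Gammaℝ (s - π.μ j))⁻¹

/-- The analytic conductor `C_π = N ∏ (1 + |μ_j|)`. -/
noncomputable def C (π : CuspidalL m) : ℝ := π.N * ∏ j, (1 + ‖π.μ j‖)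

/-- The analytic conductor at the height `t`: `C_π(t) = N ∏ (1 + |i t - μ_j|)`. -/
noncomputable def Ct (π : CuspidalL m) (t : ℝ) : ℝ := π.N * ∏ j, (1 + ‖(t : ℂ) * I - π.μ j‖)

/-- The Lindelof bound on the line `Re s = σ` for the `π` in `Fam`; for `σ = 1/2` this is the Grand Lindelof
Hypothesis for the `π` in `Fam`. -/
def LindelofOn (Fam : CuspidalL m → Prop) (σ : ℝ) : Prop :=
  ∀ ε : ℝ, 0 < ε → ∃ B : ℝ, ∀ π : CuspidalL m, Fam π → ∀ t : ℝ,
    ‖L π (σ + (t : ℂ) * I)‖ ≤ B * ((1 + |t|) * C π) ^ ε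

/-- An exponential polynomial `∑ p_a(t) exp(a t)`, the sum over `a` in a finite set `S`, with `|a| ≤ x` and
`∑ (deg p_a + 1) ≤ x`, approximates `L(1/2 + it, π)` for `|t - T| ≤ h`, up to an error `y`. -/
def Approx (π : CuspidalL m) (T h x y : ℝ) : Prop :=
  ∃ (S : Finset ℂ) (p : ℂ → ℂ[X]), ∑ a ∈ S, (((p a).natDegree : ℝ) + 1) ≤ x ∧ (∀ a ∈ S, ‖a‖ ≤ x) ∧
    ∀ t : ℝ, |t - T| ≤ h → ‖L π (1 / 2 + (t : ℂ) * I) - ∑ a ∈ S, (p a).eval (t : ℂ) * cexp (a * t)‖ ≤ y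

/-- The `n`-th derivative of `L(s, π)` is at most `n! h^(-n) x` for `s = 1/2 + it`, `|t - T| ≤ h`. -/
def DerBound (π : CuspidalL m) (T h : ℝ) (n : ℕ) (x : ℝ) : Prop :=
  ∀ t : ℝ, |t - T| ≤ h → ‖iteratedDeriv n (L π) (1 / 2 + (t : ℂ) * I)‖ ≤ n.factorial / h ^ n * x

open Pool.Agent.W169.HF Q240.GS Pool.Agent.Q97.PA

lemma ob (π : CuspidalL m) : Ob π.N π.μ π.Λ :=
  ⟨π.α, π.ε, { one_le := π.one_le
               re_le := π.re_le
               norm_le := fun j p hp => by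
                 rw [← Real.sqrt_eq_rpow]
                 exact π.norm_le j p hp
               norm_eq := π.norm_eq
               entire := π.entire
               euler := fun s hs => π.euler s (by linarith)
               fe := π.fe
               bdd := π.bdd }, π.ne_zero⟩

lemma rpow_exp {x : ℝ} (hx : 1 ≤ x) (a : ℝ) : x ^ a = Real.exp (a * Real.log x) := by
  rw [Real.rpow_def_of_pos (by linarith), mul_comm]

lemma Ct_one (π : CuspidalL m) (t : ℝ) : 1 ≤ Ct π t := cnd_pos π.one_le π.μ t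

lemma log_ge (π : CuspidalL m) {c t : ℝ} (h : Real.exp c ≤ Ct π t) : c ≤ Real.log (Ct π t) := by
  have := Real.log_le_log (Real.exp_pos _) h
  rwa [Real.log_exp] at this

lemma ge_of_log (π : CuspidalL m) {c t : ℝ} (h : Real.log (max c 1) ≤ Real.log (Ct π t)) : c ≤ Ct π t := by
  have h1 : 0 < max c 1 := lt_max_of_lt_right one_pos
  have h2 := Ct_one π t
  exact (le_max_left _ _).trans ((Real.log_le_log_iff h1 (by linarith)).1 h)

lemma near (π : CuspidalL m) {y T W : ℝ} (hW : 0 ≤ W) (h : |T - y| ≤ W) :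
    Real.log (Ct π y) ≤ Real.log (Ct π T) + m * Real.log (1 + W) := by
  have h1 := logm_shift π.one_le π.μ (y := y) (y' := T) (R := W) (h.trans (le_abs_self W))
  rwa [abs_of_nonneg hW] at h1

lemma C_one (π : CuspidalL m) (t : ℝ) : 1 ≤ (1 + |t|) * C π := by
  have h1 : 1 ≤ ∏ j, (1 + ‖π.μ j‖) := by
    refine Finset.prod_induction _ (fun x => (1 : ℝ) ≤ x) (fun a b ha hb => ?_) le_rfl fun j _ => ?_
    · nlinarith
    · linarith [norm_nonneg (π.μ j)]
  have h2 : 1 ≤ C π := by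
    unfold C
    have := π.one_le
    nlinarith
  have := abs_nonneg t
  nlinarith

lemma pt (σ t : ℝ) : (σ : ℂ) + (t : ℂ) * I = (⟨σ, t⟩ : ℂ) := by
  apply Complex.ext <;> simp

/-- the bound in terms of the conductor at height `t` -/
lemma lind_iff (hm : 1 ≤ m) (Fam : CuspidalL m → Prop) {σ : ℝ} (h1 : 1 / 2 ≤ σ) (h2 : σ ≤ 1) :
    LindelofOn Fam σ ↔ ∀ κ : ℝ, 0 < κ → ∃ C₀ : ℝ,
    ∀ π : CuspidalL m, Fam π → ∀ t : ℝ, C₀ ≤ Real.log (Ct π t) →
      ‖L π (⟨σ, t⟩ : ℂ)‖ ≤ Real.exp (κ * Real.log (Ct π t)) := by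
  have hm' : (1 : ℝ) ≤ m := by exact_mod_cast hm
  constructor
  · intro h κ hκ
    obtain ⟨B, HB⟩ := h (κ / (2 * (m + 2))) (by positivity)
    refine ⟨2 * Real.log (max B 1) / κ, fun π hP t hC => ?_⟩
    have hB : 0 < max B 1 := lt_max_of_lt_right one_pos
    have h3 := HB π hP t
    rw [pt] at h3
    refine h3.trans ?_
    rw [rpow_exp (C_one π t)]
    have h0 : B * Real.exp (κ / (2 * (m + 2)) * Real.log ((1 + |t|) * C π)) ≤
        Real.exp (Real.log (max B 1)) * Real.exp (κ / (2 * (m + 2)) * Real.log ((1 + |t|) * C π)) := by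
      rw [Real.exp_log hB]
      exact mul_le_mul_of_nonneg_right (le_max_left _ _) (Real.exp_pos _).le
    refine h0.trans ?_
    rw [← Real.exp_add]
    apply Real.exp_le_exp.2
    have h1 := (cnd_norm π.one_le π.μ hm π.normalised t).1
    change Real.log ((1 + |t|) * C π) ≤ (m + 2) * Real.log (Ct π t) at h1
    have h2 : κ / (2 * (m + 2)) * Real.log ((1 + |t|) * C π) ≤ κ / 2 * Real.log (Ct π t) := by
      calc _ ≤ κ / (2 * (m + 2)) * ((m + 2) * Real.log (Ct π t)) := mul_le_mul_of_nonneg_left h1 (by positivity)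
        _ = _ := by field_simp
    rw [div_le_iff₀ hκ] at hC
    linarith
  · intro h ε hε
    obtain ⟨C₀, hC₀⟩ := h (ε / m) (by positivity)
    obtain ⟨B, hB0, HB⟩ := triv_L (m := m) hm
    obtain ⟨C1, hC1⟩ : ∃ C1 : ℝ, C1 = max C₀ 0 := ⟨_, rfl⟩
    have hC10 : 0 ≤ C1 := by rw [hC1]; exact le_max_right _ _
    refine ⟨Real.exp (B + C1), fun π hP t => ?_⟩
    rw [rpow_exp (C_one π t), ← Real.exp_add, pt]
    have hlog := Real.log_nonneg (Ct_one π t)
    have hlogC := Real.log_nonneg (C_one π t)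
    rcases le_or_gt C₀ (Real.log (Ct π t)) with h1 | h1
    · refine (hC₀ π hP t h1).trans (Real.exp_le_exp.2 ?_)
      have h2 := (cnd_norm π.one_le π.μ hm π.normalised t).2
      change Real.log (Ct π t) ≤ (m : ℝ) * Real.log ((1 + |t|) * C π) at h2
      have h3 : ε / m * Real.log (Ct π t) ≤ ε * Real.log ((1 + |t|) * C π) := by
        calc _ ≤ ε / m * (m * Real.log ((1 + |t|) * C π)) := mul_le_mul_of_nonneg_left h2 (by positivity)
          _ = _ := by field_simp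
      linarith
    · refine (HB π.N π.μ π.Λ (ob π) σ t (by linarith) (by linarith)).trans (Real.exp_le_exp.2 ?_)
      change B + Real.log (Ct π t) ≤ _
      have h2 : C₀ ≤ C1 := by rw [hC1]; exact le_max_left _ _
      have h4 : 0 ≤ ε * Real.log ((1 + |t|) * C π) := by positivity
      linarith

lemma pt' (t : ℝ) : (1 / 2 : ℂ) + (t : ℂ) * I = (⟨1 / 2, t⟩ : ℂ) := by
  apply Complex.ext <;> simp

lemma L_fun (π : CuspidalL m) : L π = LL π.μ π.Λ := rfl

/-- (1) -/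
lemma r_loc (hm : 1 ≤ m) {h : ℝ} (hh0 : 0 < h) (hh1 : h ≤ 1) {ε : ℝ} (hε : 0 < ε) : ∃ ν R C₀ : ℝ, 0 < ν ∧ 0 < R ∧
    ∀ (π : CuspidalL m) (T : ℝ), C₀ ≤ Real.log (Ct π T) →
      (∀ y : ℝ, |y - T| ≤ R → Approx π y h (ν * Real.log (Ct π T)) (Ct π T ^ ν) ∨
        ∃ n : ℕ, (n : ℝ) ≤ ν * Real.log (Ct π T) ∧ DerBound π y h n (Ct π T ^ ν)) →
      ‖L π (⟨1 / 2, T⟩ : ℂ)‖ ≤ Real.exp (ε * Real.log (Ct π T)) := by
  obtain ⟨ν, Y, C0, hν, hY, H⟩ := gl_iter hm hh0 hh1 hε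
  refine ⟨ν / 18, Y, max C0 (18 / ν), by positivity, by linarith, fun π T hT hp => ?_⟩
  have hW1 : 18 / ν ≤ Real.log (Ct π T) := (le_max_right _ _).trans hT
  have hW : 0 ≤ Real.log (Ct π T) := le_trans (by positivity) hW1
  rw [div_le_iff₀ hν] at hW1
  have hνW : 0 ≤ ν * Real.log (Ct π T) := by positivity
  refine H π.N π.μ π.Λ (ob π) T ((le_max_left _ _).trans hT) fun y hy => ?_
  change ∃ g : ℂ → ℂ, Dbl (ν * Real.log (Ct π T)) g ∧ ∀ t : ℝ, |t - y| ≤ h →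
    ‖L π (⟨1 / 2, t⟩ : ℂ) - g (t : ℂ)‖ ≤ Real.exp (ν * Real.log (Ct π T))
  rcases hp y hy with ⟨S, p, hp1, hp2, hp3⟩ | ⟨n, hn1, hn2⟩
  · refine ⟨xs S p, (xs_dbl (by positivity) hp1 hp2).mono (by linarith), fun t ht => ?_⟩
    have h1 := hp3 t ht
    rw [pt', rpow_exp (Ct_one π T)] at h1
    exact h1.trans (Real.exp_le_exp.2 (by linarith))
  · obtain ⟨p, hp1, hp2⟩ := der_poly (f := L π) (fun s => LL_an (ob π) s) hh0 y (n := n)
      (M := ν / 18 * Real.log (Ct π T)) (fun t ht => by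
        have h1 := hn2 t ht
        rw [pt', rpow_exp (Ct_one π T)] at h1
        refine h1.trans (le_of_eq ?_)
        rw [inv_pow, div_eq_mul_inv])
    have h1 : (p.natDegree : ℝ) ≤ n := by exact_mod_cast hp1
    refine ⟨fun z => p.eval z, (poly_xs p (x := (p.natDegree : ℝ) + 1) le_rfl).mono (by linarith),
      fun t ht => (hp2 t ht).trans (Real.exp_le_exp.2 (by linarith))⟩

/-- (2) -/
lemma r_cau (hm : 1 ≤ m) {ε : ℝ} (hε : 0 < ε) : ∃ ν R C₀ : ℝ, 0 < ν ∧ 0 < R ∧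
    ∀ (π : CuspidalL m) (T : ℝ), C₀ ≤ Real.log (Ct π T) →
      (∀ y : ℝ, |y - T| ≤ R → ‖L π (⟨1 / 2, y⟩ : ℂ)‖ ≤ Real.exp (ν * Real.log (Ct π T))) →
      ∀ n : ℕ, (n : ℝ) ≤ ν * Real.log (Ct π T) → DerBound π T 1 n (Ct π T ^ ε) := by
  obtain ⟨ν, Y, C0, hν, hY, H⟩ := gl_cauchy hm (ε := ε / 2) (by positivity)
  refine ⟨min ν (ε / 2), Y, max C0 0, lt_min hν (by positivity), by linarith, fun π T hT hl n hn t ht => ?_⟩
  have hW : 0 ≤ Real.log (Ct π T) := (le_max_right _ _).trans hT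
  have h1 := H π.N π.μ π.Λ (ob π) T (ε / 2) (by positivity) ((le_max_left _ _).trans hT) (fun u hu =>
    (hl u hu).trans (Real.exp_le_exp.2 (mul_le_mul_of_nonneg_right (min_le_right _ _) hW))) n
    (hn.trans (mul_le_mul_of_nonneg_right (min_le_left _ _) hW)) t ht
  rw [pt', one_pow, div_one, rpow_exp (Ct_one π T)]
  have e1 : ε / 2 + ε / 2 = ε := by ring
  rw [e1] at h1
  exact h1

/-- (3) -/
lemma r_sharp (hm : 1 ≤ m) {K : ℝ} (hK : 0 < K) : ∃ C : ℝ, ∀ (π : CuspidalL m) (T : ℝ), C ≤ Ct π T →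
      Approx π T 1 (C * Real.log (Ct π T)) (Ct π T ^ (-K)) ∧
      ∀ n : ℕ, C * Real.log (Ct π T) ≤ n → DerBound π T 1 n (Ct π T ^ (-K)) := by
  obtain ⟨C0, hC0, H⟩ := gl_high hm (K := K) hK
  refine ⟨max (Real.exp C0) (4 * (K + 21)), fun π T hT => ?_⟩
  have hW : C0 ≤ Real.log (Ct π T) := log_ge π ((le_max_left _ _).trans hT)
  obtain ⟨k1, p, k2, k3⟩ := H π.N π.μ π.Λ (ob π) T hW
  obtain ⟨W, hWd⟩ : ∃ W : ℝ, W = Real.log (Ct π T) := ⟨_, rfl⟩
  change ∀ n : ℕ, (K + 18) * Real.log (Ct π T) ≤ n → ∀ t : ℝ, |t - T| ≤ 1 → ‖iteratedDeriv n (L π) (⟨1 / 2, t⟩ : ℂ)‖ ≤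
    n.factorial * Real.exp (-K * Real.log (Ct π T)) at k1
  change (p.natDegree : ℝ) ≤ 4 * (K + 20) * Real.log (Ct π T) at k2
  change ∀ t : ℝ, |t - T| ≤ 1 → ‖L π (⟨1 / 2, t⟩ : ℂ) - p.eval (t : ℂ)‖ ≤ Real.exp (-K * Real.log (Ct π T)) at k3
  rw [← hWd] at hW k1 k2 k3 ⊢
  have hCm : 4 * (K + 21) * W ≤ max (Real.exp C0) (4 * (K + 21)) * W :=
    mul_le_mul_of_nonneg_right (le_max_right _ _) (by linarith)
  refine ⟨⟨{0}, fun _ => p, ?_, ?_, fun t ht => ?_⟩, fun n hn t ht => ?_⟩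
  · rw [Finset.sum_singleton]
    refine le_trans ?_ hCm
    linarith
  · intro a ha
    rw [Finset.mem_singleton.1 ha, norm_zero]
    refine le_trans ?_ hCm
    have : 0 ≤ W := by linarith
    positivity
  · rw [pt', rpow_exp (Ct_one π T), ← hWd, Finset.sum_singleton, zero_mul, Complex.exp_zero, mul_one]
    exact k3 t ht
  · rw [pt', rpow_exp (Ct_one π T), ← hWd, one_pow, div_one]
    refine k1 n ?_ t ht
    refine le_trans ?_ (hCm.trans hn)
    nlinarith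

/-- (3), one window -/
lemma r_one (hm : 1 ≤ m) {h : ℝ} (hh0 : 0 < h) : ∃ K c C : ℝ, 0 < K ∧ 0 < c ∧ ∀ (π : CuspidalL m) (T : ℝ),
    C ≤ Ct π T → ¬ Approx π T h (c * Real.log (Ct π T)) (Ct π T ^ (-K)) := by
  obtain ⟨K, ν, C0, hK, hν, H⟩ := gl_one (m := m) hm hh0
  refine ⟨K, ν / 9, Real.exp (max C0 0), hK, by positivity, fun π T hT => ?_⟩
  have hT' := log_ge π hT
  have hW : 0 ≤ Real.log (Ct π T) := (le_max_right _ _).trans hT'
  rintro ⟨S, p, h1, h2, h3⟩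
  refine H π.N π.μ π.Λ (ob π) T ((le_max_left _ _).trans hT') (xs S p)
    ((xs_dbl (by positivity) h1 h2).mono (le_of_eq ?_)) fun t ht => ?_
  · change 9 * (ν / 9 * Real.log (Ct π T)) = ν * Real.log (Ct π T)
    ring
  · have h4 := h3 t ht
    rw [pt', rpow_exp (Ct_one π T)] at h4
    exact h4

/-- (3), long windows -/
lemma r_long (hm : 1 ≤ m) {h K : ℝ} (hh0 : 0 < h) (hh1 : h ≤ 1) (hK : 0 < K) : ∃ c R C : ℝ, 0 < c ∧ 0 < R ∧
    ∀ (π : CuspidalL m) (T : ℝ), C ≤ Ct π T →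
      ∃ y : ℝ, |y - T| ≤ R ∧ ¬ Approx π y h (c * Real.log (Ct π T)) (Ct π T ^ (-K)) := by
  obtain ⟨ν, R, C0, hν, hR, H⟩ := gl_long (m := m) hm hh0 hh1 hK
  refine ⟨ν / 9, R, Real.exp (max C0 0), by positivity, hR, fun π T hT => ?_⟩
  have hT' := log_ge π hT
  have hW : 0 ≤ Real.log (Ct π T) := (le_max_right _ _).trans hT'
  obtain ⟨y, hy, hg⟩ := H π.N π.μ π.Λ (ob π) T ((le_max_left _ _).trans hT')
  refine ⟨y, hy, ?_⟩
  rintro ⟨S, p, h1, h2, h3⟩
  refine hg (xs S p) ((xs_dbl (by positivity) h1 h2).mono (le_of_eq ?_)) fun t ht => ?_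
  · change 9 * (ν / 9 * Real.log (Ct π T)) = ν * Real.log (Ct π T)
    ring
  · have h4 := h3 t ht
    rw [pt', rpow_exp (Ct_one π T)] at h4
    exact h4

theorem result (hm : 1 ≤ m) :
    (∀ h ε : ℝ, 0 < h → h ≤ 1 → 0 < ε → ∃ ν R C₀ : ℝ, 0 < ν ∧ 0 < R ∧ ∀ (π : CuspidalL m) (T : ℝ), C₀ ≤ Ct π T →
      (∀ y : ℝ, |y - T| ≤ R → Approx π y h (ν * Real.log (Ct π T)) (Ct π T ^ ν) ∨
        ∃ n : ℕ, (n : ℝ) ≤ ν * Real.log (Ct π T) ∧ DerBound π y h n (Ct π T ^ ν)) →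
      ‖L π (1 / 2 + (T : ℂ) * I)‖ ≤ Ct π T ^ ε) ∧
    (∀ ε : ℝ, 0 < ε → ∃ ν R C₀ : ℝ, 0 < ν ∧ 0 < R ∧ ∀ (π : CuspidalL m) (T : ℝ), C₀ ≤ Ct π T →
      (∀ y : ℝ, |y - T| ≤ R → ‖L π (1 / 2 + (y : ℂ) * I)‖ ≤ Ct π T ^ ν) →
      ∀ n : ℕ, (n : ℝ) ≤ ν * Real.log (Ct π T) → DerBound π T 1 n (Ct π T ^ ε)) ∧
    (∀ K : ℝ, 0 < K → ∃ C : ℝ, ∀ (π : CuspidalL m) (T : ℝ), C ≤ Ct π T →
      Approx π T 1 (C * Real.log (Ct π T)) (Ct π T ^ (-K)) ∧
      ∀ n : ℕ, C * Real.log (Ct π T) ≤ n → DerBound π T 1 n (Ct π T ^ (-K))) ∧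
    (∀ h : ℝ, 0 < h → ∃ K c C : ℝ, 0 < K ∧ 0 < c ∧ ∀ (π : CuspidalL m) (T : ℝ),
      C ≤ Ct π T → ¬ Approx π T h (c * Real.log (Ct π T)) (Ct π T ^ (-K))) ∧
    (∀ h K : ℝ, 0 < h → h ≤ 1 → 0 < K → ∃ c R C : ℝ, 0 < c ∧ 0 < R ∧ ∀ (π : CuspidalL m) (T : ℝ), C ≤ Ct π T →
      ∃ y : ℝ, |y - T| ≤ R ∧ ¬ Approx π y h (c * Real.log (Ct π T)) (Ct π T ^ (-K))) ∧
    (∀ (Fam : CuspidalL m → Prop) (h : ℝ), 0 < h → h ≤ 1 → (LindelofOn Fam (1 / 2) ↔
      ∀ ε : ℝ, 0 < ε → ∃ C₀ : ℝ, ∀ π : CuspidalL m, Fam π → ∀ T : ℝ, C₀ ≤ Ct π T →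
        Approx π T h (ε * Real.log (Ct π T)) (Ct π T ^ ε))) ∧
    (∀ (Fam : CuspidalL m → Prop) (n : CuspidalL m → ℝ → ℕ),
      (∀ ε : ℝ, 0 < ε → ∃ C₀ : ℝ, ∀ π : CuspidalL m, Fam π → ∀ T : ℝ, C₀ ≤ Ct π T →
        (n π T : ℝ) ≤ ε * Real.log (Ct π T)) → (LindelofOn Fam (1 / 2) ↔
      ∀ ε : ℝ, 0 < ε → ∃ C₀ : ℝ, ∀ π : CuspidalL m, Fam π → ∀ T : ℝ, C₀ ≤ Ct π T →
        DerBound π T 1 (n π T) (Ct π T ^ ε))) := by
  have hm0 : (0 : ℝ) ≤ m := Nat.cast_nonneg m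
  have e12 : ((1 / 2 : ℝ) : ℂ) = 1 / 2 := by norm_num
  have hlin : ∀ Fam : CuspidalL m → Prop, LindelofOn Fam (1 / 2) ↔ ∀ κ : ℝ, 0 < κ → ∃ C₀ : ℝ,
      ∀ π : CuspidalL m, Fam π → ∀ t : ℝ, C₀ ≤ Real.log (Ct π t) →
        ‖L π (⟨1 / 2, t⟩ : ℂ)‖ ≤ Real.exp (κ * Real.log (Ct π t)) := fun Fam =>
    lind_iff hm Fam le_rfl (by norm_num)
  -- passing to nearby heights
  have hnb : ∀ (C₀ : ℝ) (R : ℝ), 0 < R → ∃ C₁ : ℝ, ∀ (π : CuspidalL m) (T y : ℝ), C₁ ≤ Real.log (Ct π T) → |y - T| ≤ R →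
      C₀ ≤ Real.log (Ct π y) ∧ Real.log (Ct π y) ≤ 2 * Real.log (Ct π T) := by
    intro C₀ R hR
    obtain ⟨k, hk⟩ : ∃ k : ℝ, k = m * Real.log (1 + R) := ⟨_, rfl⟩
    have hk0 : 0 ≤ k := by rw [hk]; exact mul_nonneg hm0 (Real.log_nonneg (by linarith))
    refine ⟨|C₀| + k, fun π T y hT hy => ?_⟩
    have h1 := near π hR.le (y := T) (T := y) hy
    have h2 := near π hR.le (y := y) (T := T) (by rw [abs_sub_comm]; exact hy)
    rw [← hk] at h1 h2
    have h3 := le_abs_self C₀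
    have h4 := abs_nonneg C₀
    constructor <;> linarith
  refine ⟨fun h ε hh0 hh1 hε => ?_, fun ε hε => ?_, fun K hK => r_sharp hm hK, fun h hh0 => r_one hm hh0,
    fun h K hh0 hh1 hK => r_long hm hh0 hh1 hK, fun Fam h hh0 hh1 => ?_, fun Fam n hn => ?_⟩
  · obtain ⟨ν, R, C₀, hν, hR, H⟩ := r_loc (m := m) hm hh0 hh1 hε
    refine ⟨ν, R, Real.exp C₀, hν, hR, fun π T hT hp => ?_⟩
    rw [pt', rpow_exp (Ct_one π T)]
    exact H π T (log_ge π hT) hp
  · obtain ⟨ν, R, C₀, hν, hR, H⟩ := r_cau (m := m) hm hε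
    refine ⟨ν, R, Real.exp C₀, hν, hR, fun π T hT hp => H π T (log_ge π hT) fun y hy => ?_⟩
    have h1 := hp y hy
    rwa [pt', rpow_exp (Ct_one π T)] at h1
  · rw [hlin]
    constructor
    · intro H ε hε
      obtain ⟨C₀, hC₀⟩ := H (ε / 2) (by positivity)
      obtain ⟨C₁, hC₁⟩ := hnb C₀ 1 one_pos
      refine ⟨Real.exp (max C₁ 0), fun π hπ T hT => ?_⟩
      have hT' := log_ge π hT
      have hT1 := (le_max_left _ _).trans hT'
      have hT0 := (le_max_right _ _).trans hT'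
      refine ⟨∅, fun _ => 0, ?_, by simp, fun t ht => ?_⟩
      · rw [Finset.sum_empty]
        positivity
      · rw [Finset.sum_empty, sub_zero, pt', rpow_exp (Ct_one π T)]
        obtain ⟨g1, g2⟩ := hC₁ π T t hT1 (ht.trans hh1)
        refine (hC₀ π hπ t g1).trans (Real.exp_le_exp.2 ?_)
        nlinarith
    · intro H κ hκ
      obtain ⟨ν, R, C₀, hν, hR, hH⟩ := r_loc (m := m) hm hh0 hh1 hκ
      obtain ⟨C₂, hC₂⟩ := H (ν / 2) (by positivity)
      obtain ⟨C₁, hC₁⟩ := hnb (Real.log (max C₂ 1)) R hR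
      refine ⟨max C₀ (max C₁ 0), fun π hπ T hT => ?_⟩
      refine hH π T ((le_max_left _ _).trans hT) fun y hy => Or.inl ?_
      have hT1 := (le_max_left _ _).trans ((le_max_right _ _).trans hT)
      have hT0 := (le_max_right _ _).trans ((le_max_right _ _).trans hT)
      obtain ⟨g1, g2⟩ := hC₁ π T y hT1 hy
      obtain ⟨S, p, hp1, hp2, hp3⟩ := hC₂ π hπ y (ge_of_log π g1)
      have h1 : ν / 2 * Real.log (Ct π y) ≤ ν * Real.log (Ct π T) := by nlinarith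
      refine ⟨S, p, hp1.trans h1, fun a ha => (hp2 a ha).trans h1, fun t ht => (hp3 t ht).trans ?_⟩
      rw [rpow_exp (Ct_one π y), rpow_exp (Ct_one π T)]
      exact Real.exp_le_exp.2 h1
  · rw [hlin]
    constructor
    · intro H ε hε
      obtain ⟨ν, R, C₀, hν, hR, hH⟩ := r_cau (m := m) hm hε
      obtain ⟨C₂, hC₂⟩ := H (ν / 2) (by positivity)
      obtain ⟨C₁, hC₁⟩ := hnb C₂ R hR
      obtain ⟨C₃, hC₃⟩ := hn ν hν
      refine ⟨max (Real.exp (max C₀ (max C₁ 0))) C₃, fun π hπ T hT => ?_⟩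
      have hT' := log_ge π ((le_max_left _ _).trans hT)
      have hT1 := (le_max_left _ _).trans ((le_max_right _ _).trans hT')
      refine hH π T ((le_max_left _ _).trans hT') (fun y hy => ?_) _ (hC₃ π hπ T ((le_max_right _ _).trans hT))
      obtain ⟨g1, g2⟩ := hC₁ π T y hT1 hy
      refine (hC₂ π hπ y g1).trans (Real.exp_le_exp.2 ?_)
      nlinarith
    · intro H κ hκ
      obtain ⟨ν, R, C₀, hν, hR, hH⟩ := r_loc (m := m) hm one_pos le_rfl hκ
      obtain ⟨C₂, hC₂⟩ := H (ν / 2) (by positivity)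
      obtain ⟨C₃, hC₃⟩ := hn (ν / 2) (by positivity)
      obtain ⟨C₁, hC₁⟩ := hnb (Real.log (max (max C₂ C₃) 1)) R hR
      refine ⟨max C₀ C₁, fun π hπ T hT => ?_⟩
      refine hH π T ((le_max_left _ _).trans hT) fun y hy => Or.inr ?_
      obtain ⟨g1, g2⟩ := hC₁ π T y ((le_max_right _ _).trans hT) hy
      have g3 := ge_of_log π g1
      have h1 : ν / 2 * Real.log (Ct π y) ≤ ν * Real.log (Ct π T) := by nlinarith
      refine ⟨n π y, (hC₃ π hπ y ((le_max_right _ _).trans g3)).trans h1, fun t ht => ?_⟩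
      refine (hC₂ π hπ y ((le_max_left _ _).trans g3) t ht).trans ?_
      apply mul_le_mul_of_nonneg_left _ (by positivity)
      rw [rpow_exp (Ct_one π y), rpow_exp (Ct_one π T)]
      exact Real.exp_le_exp.2 h1

end Pool.Agent.Results.MP_52e316_nt.ExponentialPolynomialsGLm
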