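import Pool.Agent.Q240.GS.Fam

/-!
# The Grand Lindelof Hypothesis for `GL(m)` and zeros to the left of the critical line

`π` runs through the L-functions of cuspidal automorphic representations of `GL_m(𝔸_ℚ)` (`CuspidalL m`),
`C_π(T) = N ∏ (1 + |i T - μ_j|)` is the analytic conductor at the height `T`.  Let `P` be a nonzero polynomial,
`S` a finite set of reals, and `F(s) = P(d/ds) L(s, π) + ∑ c(l) exp(-l s)`, `l` in `S`, with coefficients
bounded by `B`: each derivative of `L(s, π)`, `L(s, π) - a`, and so on.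

The Grand Lindelof Hypothesis holds for a set of `π` if and only if, uniformly in these `π`, the function `F` has
`o(log C_π(T))` zeros with `-2 ≤ Re s ≤ 1/2 - ε` and `|Im s - T| ≤ 1` as `C_π(T) → ∞`.  The same is proved on each
line `Re s = 1 - α`, `0 < α ≤ 1/2`, and locally in `T`, uniformly in `π` and in the coefficients.  At heights far
from the `Im μ_j` the zeros of any two such functions `F` and `G` to the left of the critical line are near each
other; hence the zeros of `Λ(s, π)` with `Re s > 1 - α + ε` are absent (far from the `Im μ_j`) if and only if those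
of `F` with `-1/4 ≤ Re s ≤ α - ε` are.

Idea: to the left of the strip `F` has the size `C_π(T)^(1/2 - Re s)`, apart from the trivial zeros, at most `5 m` of
which matter.  If there are few zeros in a larger region, the same upper bound holds there (Backlund's argument);
then one descends to `L` by solving the differential equation from the right, and uses the functional equation.
-/

set_option autoImplicit false

open Complex Polynomial
open scoped ComplexConjugate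

namespace Pool.Agent.Results.MP_52e316_nt.LeftZerosGLm

/-- Analytic data of a cuspidal automorphic representation of `GL_m(𝔸_ℚ)` (not the trivial one for
`m = 1`), normalised as in the problem: conductor `N`, archimedean parameters `μ_j` with `Re μ_j ≤ 1/2` and
`∑ Im μ_j = 0` (the central character is trivial on the positive reals), Satake parameters
`|α_j(p)| ≤ √p`, root number `ε`, and the entire completed L-function `Λ` (gamma factors times Euler product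
for `Re s > 3/2`) with the functional equation, finite order in vertical strips and no zeros in
`Re s > 1` (all known: Godement-Jacquet, Jacquet-Shalika). -/
structure CuspidalL (m : ℕ) where
  /-- the conductor -/
  N : ℝ
  /-- the archimedean parameters -/
  μ : Fin m → ℂ
  /-- the Satake parameters -/
  α : Fin m → ℕ → ℂ
  /-- the root number -/
  ε : ℂ
  /-- the completed L-function -/
  Λ : ℂ → ℂ
  one_le : 1 ≤ N
  re_le : ∀ j, (μ j).re ≤ 1 / 2
  normalised : ∑ j, (μ j).im = 0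
  norm_le : ∀ j, ∀ p : ℕ, p.Prime → ‖α j p‖ ≤ Real.sqrt p
  norm_eq : ‖ε‖ = 1
  entire : Differentiable ℂ Λ
  euler : ∀ s : ℂ, 3 / 2 < s.re → Λ s = (∏ j, Gammaℝ (s - μ j)) *
    ∏' p : Nat.Primes, ∏ j, (1 - α j p * (p : ℂ) ^ (-s))⁻¹
  fe : ∀ s : ℂ, Λ s = ε * (N : ℂ) ^ (1 / 2 - s) * conj (Λ (1 - conj s))
  bdd : ∀ a b : ℝ, ∃ M, ∀ s : ℂ, a ≤ s.re → s.re ≤ b → ‖Λ s‖ ≤ Real.exp (M * (1 + |s.im|))
  ne_zero : ∀ s : ℂ, 1 < s.re → Λ s ≠ 0

variable {m : ℕ}

/-- The L-function `L(s, π) = Λ(s, π) / ∏ Γ_ℝ(s - μ_j)`. -/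
noncomputable def L (π : CuspidalL m) (s : ℂ) : ℂ := π.Λ s * ∏ j, (Gammaℝ (s - π.μ j))⁻¹

/-- The analytic conductor `C_π = N ∏ (1 + |μ_j|)`. -/
noncomputable def C (π : CuspidalL m) : ℝ := π.N * ∏ j, (1 + ‖π.μ j‖)

/-- The analytic conductor at the height `t`: `C_π(t) = N ∏ (1 + |i t - μ_j|)`. -/
noncomputable def Ct (π : CuspidalL m) (t : ℝ) : ℝ := π.N * ∏ j, (1 + ‖(t : ℂ) * I - π.μ j‖)

/-- The Lindelof bound on the line `Re s = σ` for the `π` in `Fam`; for `σ = 1/2` this is the Grand Lindelof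
Hypothesis for the `π` in `Fam`. -/
def LindelofOn (Fam : CuspidalL m → Prop) (σ : ℝ) : Prop :=
  ∀ ε : ℝ, 0 < ε → ∃ B : ℝ, ∀ π : CuspidalL m, Fam π → ∀ t : ℝ,
    ‖L π (σ + (t : ℂ) * I)‖ ≤ B * ((1 + |t|) * C π) ^ ε

/-- `F(s) = P(d/ds) L(s, π) + ∑ c(l) exp(-l s)`, the sum over the finite set `S` of reals. -/
noncomputable def F (π : CuspidalL m) (P : ℂ[X]) (S : Finset ℝ) (c : ℝ → ℂ) (s : ℂ) : ℂ :=
  ∑ i ∈ Finset.range (P.natDegree + 1), P.coeff i * iteratedDeriv i (L π) s + ∑ l ∈ S, c l * cexp (-(l * s))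

/-- `G` is not identically zero, and has at most `x` zeros, counted with multiplicity, with `-2 ≤ Re s ≤ a` and
`|Im s - T| ≤ h`. -/
def AtMost (G : ℂ → ℂ) (a h T x : ℝ) : Prop := (∃ s, G s ≠ 0) ∧ ∀ Z : Finset ℂ,
  (∀ z ∈ Z, G z = 0 ∧ -2 ≤ z.re ∧ z.re ≤ a ∧ |z.im - T| ≤ h) → ∑ z ∈ Z, (analyticOrderNatAt G z : ℝ) ≤ x

open Pool.Agent.W169.HF Q240.GS

lemma ob (π : CuspidalL m) : Ob π.N π.μ π.Λ :=
  ⟨π.α, π.ε, { one_le := π.one_le
               re_le := π.re_le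
               norm_le := fun j p hp => by
                 rw [← Real.sqrt_eq_rpow]
                 exact π.norm_le j p hp
               norm_eq := π.norm_eq
               entire := π.entire
               euler := fun s hs => π.euler s (by linarith)
               fe := π.fe
               bdd := π.bdd }, π.ne_zero⟩

lemma rpow_exp {x : ℝ} (hx : 1 ≤ x) (a : ℝ) : x ^ a = Real.exp (a * Real.log x) := by
  rw [Real.rpow_def_of_pos (by linarith), mul_comm]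

lemma Ct_one (π : CuspidalL m) (t : ℝ) : 1 ≤ Ct π t := cnd_pos π.one_le π.μ t

lemma log_ge (π : CuspidalL m) {c t : ℝ} (h : Real.exp c ≤ Ct π t) : c ≤ Real.log (Ct π t) := by
  have := Real.log_le_log (Real.exp_pos _) h
  rwa [Real.log_exp] at this

lemma ge_of_log (π : CuspidalL m) {c t : ℝ} (h : Real.log (max c 1) ≤ Real.log (Ct π t)) : c ≤ Ct π t := by
  have h1 : 0 < max c 1 := lt_max_of_lt_right one_pos
  have h2 := Ct_one π t
  exact (le_max_left _ _).trans ((Real.log_le_log_iff h1 (by linarith)).1 h)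

lemma near (π : CuspidalL m) {y T W : ℝ} (hW : 0 ≤ W) (h : |T - y| ≤ W) :
    Real.log (Ct π y) ≤ Real.log (Ct π T) + m * Real.log (1 + W) := by
  have h1 := logm_shift π.one_le π.μ (y := y) (y' := T) (R := W) (h.trans (le_abs_self W))
  rwa [abs_of_nonneg hW] at h1

lemma C_one (π : CuspidalL m) (t : ℝ) : 1 ≤ (1 + |t|) * C π := by
  have h1 : 1 ≤ ∏ j, (1 + ‖π.μ j‖) := by
    refine Finset.prod_induction _ (fun x => (1 : ℝ) ≤ x) (fun a b ha hb => ?_) le_rfl fun j _ => ?_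
    · nlinarith
    · linarith [norm_nonneg (π.μ j)]
  have h2 : 1 ≤ C π := by
    unfold C
    have := π.one_le
    nlinarith
  have := abs_nonneg t
  nlinarith

lemma pt (σ t : ℝ) : (σ : ℂ) + (t : ℂ) * I = (⟨σ, t⟩ : ℂ) := by
  apply Complex.ext <;> simp

/-- the bound in terms of the conductor at height `t` -/
lemma lind_iff (hm : 1 ≤ m) (Fam : CuspidalL m → Prop) {σ : ℝ} (h1 : 1 / 2 ≤ σ) (h2 : σ ≤ 1) :
    LindelofOn Fam σ ↔ ∀ κ : ℝ, 0 < κ → ∃ C₀ : ℝ,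
    ∀ π : CuspidalL m, Fam π → ∀ t : ℝ, C₀ ≤ Real.log (Ct π t) →
      ‖L π (⟨σ, t⟩ : ℂ)‖ ≤ Real.exp (κ * Real.log (Ct π t)) := by
  have hm' : (1 : ℝ) ≤ m := by exact_mod_cast hm
  constructor
  · intro h κ hκ
    obtain ⟨B, HB⟩ := h (κ / (2 * (m + 2))) (by positivity)
    refine ⟨2 * Real.log (max B 1) / κ, fun π hP t hC => ?_⟩
    have hB : 0 < max B 1 := lt_max_of_lt_right one_pos
    have h3 := HB π hP t
    rw [pt] at h3
    refine h3.trans ?_
    rw [rpow_exp (C_one π t)]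
    have h0 : B * Real.exp (κ / (2 * (m + 2)) * Real.log ((1 + |t|) * C π)) ≤
        Real.exp (Real.log (max B 1)) * Real.exp (κ / (2 * (m + 2)) * Real.log ((1 + |t|) * C π)) := by
      rw [Real.exp_log hB]
      exact mul_le_mul_of_nonneg_right (le_max_left _ _) (Real.exp_pos _).le
    refine h0.trans ?_
    rw [← Real.exp_add]
    apply Real.exp_le_exp.2
    have h1 := (cnd_norm π.one_le π.μ hm π.normalised t).1
    change Real.log ((1 + |t|) * C π) ≤ (m + 2) * Real.log (Ct π t) at h1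
    have h2 : κ / (2 * (m + 2)) * Real.log ((1 + |t|) * C π) ≤ κ / 2 * Real.log (Ct π t) := by
      calc _ ≤ κ / (2 * (m + 2)) * ((m + 2) * Real.log (Ct π t)) := mul_le_mul_of_nonneg_left h1 (by positivity)
        _ = _ := by field_simp
    rw [div_le_iff₀ hκ] at hC
    linarith
  · intro h ε hε
    obtain ⟨C₀, hC₀⟩ := h (ε / m) (by positivity)
    obtain ⟨B, hB0, HB⟩ := triv_L (m := m) hm
    obtain ⟨C1, hC1⟩ : ∃ C1 : ℝ, C1 = max C₀ 0 := ⟨_, rfl⟩
    have hC10 : 0 ≤ C1 := by rw [hC1]; exact le_max_right _ _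
    refine ⟨Real.exp (B + C1), fun π hP t => ?_⟩
    rw [rpow_exp (C_one π t), ← Real.exp_add, pt]
    have hlog := Real.log_nonneg (Ct_one π t)
    have hlogC := Real.log_nonneg (C_one π t)
    rcases le_or_gt C₀ (Real.log (Ct π t)) with h1 | h1
    · refine (hC₀ π hP t h1).trans (Real.exp_le_exp.2 ?_)
      have h2 := (cnd_norm π.one_le π.μ hm π.normalised t).2
      change Real.log (Ct π t) ≤ (m : ℝ) * Real.log ((1 + |t|) * C π) at h2
      have h3 : ε / m * Real.log (Ct π t) ≤ ε * Real.log ((1 + |t|) * C π) := by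
        calc _ ≤ ε / m * (m * Real.log ((1 + |t|) * C π)) := mul_le_mul_of_nonneg_left h2 (by positivity)
          _ = _ := by field_simp
      linarith
    · refine (HB π.N π.μ π.Λ (ob π) σ t (by linarith) (by linarith)).trans (Real.exp_le_exp.2 ?_)
      change B + Real.log (Ct π t) ≤ _
      have h2 : C₀ ≤ C1 := by rw [hC1]; exact le_max_left _ _
      have h4 : 0 ≤ ε * Real.log ((1 + |t|) * C π) := by positivity
      linarith

/-- `P`, `Q` nonzero polynomials, `S`, `R` finite sets of reals, coefficients bounded by `B`, `0 < α ≤ 1/2`. -/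
theorem result (hm : 1 ≤ m) (P Q : ℂ[X]) (hP : P ≠ 0) (hQ : Q ≠ 0) (S R : Finset ℝ) (B α : ℝ) (hB : 0 ≤ B)
    (hα0 : 0 < α) (hα : α ≤ 1 / 2) :
    (∀ ε : ℝ, 0 < ε → ∃ η h C₀ : ℝ, 0 < η ∧ ∀ (π : CuspidalL m) (c : ℝ → ℂ) (T : ℝ), (∀ l ∈ S, ‖c l‖ ≤ B) →
      C₀ ≤ Ct π T → AtMost (F π P S c) (α - η) h T (η * Real.log (Ct π T)) →
      ‖L π ((1 - α : ℝ) + (T : ℂ) * I)‖ ≤ Ct π T ^ ε) ∧
    (∀ ε : ℝ, 0 < ε → ∃ η h C₀ : ℝ, 0 < η ∧ ∀ (π : CuspidalL m) (c : ℝ → ℂ) (T : ℝ), (∀ l ∈ S, ‖c l‖ ≤ B) →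
      C₀ ≤ Ct π T → (∀ t : ℝ, |t - T| ≤ h → ‖L π ((1 - α : ℝ) + (t : ℂ) * I)‖ ≤ Ct π t ^ η) →
      AtMost (F π P S c) (α - ε) 1 T (ε * Real.log (Ct π T))) ∧
    (∀ ε : ℝ, 0 < ε → ∃ η h C₀ : ℝ, 0 < η ∧ ∀ (π : CuspidalL m) (c d : ℝ → ℂ) (T : ℝ), (∀ l ∈ S, ‖c l‖ ≤ B) →
      (∀ l ∈ R, ‖d l‖ ≤ B) → C₀ ≤ Ct π T → AtMost (F π P S c) (α - η) h T (η * Real.log (Ct π T)) →
      AtMost (F π Q R d) (α - ε) 1 T (ε * Real.log (Ct π T))) ∧
    (∀ (Fam : CuspidalL m → Prop) (c : CuspidalL m → ℝ → ℂ), (∀ π, ∀ l ∈ S, ‖c π l‖ ≤ B) →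
      (LindelofOn Fam (1 - α) ↔ ∀ ε : ℝ, 0 < ε → ∃ C₀ : ℝ, ∀ π : CuspidalL m, Fam π → ∀ T : ℝ, C₀ ≤ Ct π T →
        AtMost (F π P S (c π)) (α - ε) 1 T (ε * Real.log (Ct π T)))) ∧
    (∀ ε : ℝ, 0 < ε → ∃ X : ℝ, ∀ (π : CuspidalL m) (c d : ℝ → ℂ), (∀ l ∈ S, ‖c l‖ ≤ B) → (∀ l ∈ R, ‖d l‖ ≤ B) →
      ∀ ρ : ℂ, (∀ j, X ≤ |ρ.im - (π.μ j).im|) → F π P S c ρ = 0 → -1 / 4 ≤ ρ.re → ρ.re ≤ α - ε →
      ∃ s : ℂ, F π Q R d s = 0 ∧ -1 / 4 < s.re ∧ s.re < α ∧ |s.im - ρ.im| ≤ X) ∧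
    (∀ (Fam : CuspidalL m → Prop) (c : CuspidalL m → ℝ → ℂ), (∀ π, ∀ l ∈ S, ‖c π l‖ ≤ B) →
      ((∀ ε : ℝ, 0 < ε → ∃ X : ℝ, ∀ π : CuspidalL m, Fam π → ∀ ρ : ℂ, π.Λ ρ = 0 →
        (∀ j, X ≤ |ρ.im - (π.μ j).im|) → ρ.re < 1 - α + ε) ↔
      (∀ ε : ℝ, 0 < ε → ∃ X : ℝ, ∀ π : CuspidalL m, Fam π → ∀ ρ : ℂ, F π P S (c π) ρ = 0 →
        (∀ j, X ≤ |ρ.im - (π.μ j).im|) → -1 / 4 ≤ ρ.re → α - ε < ρ.re))) := by
  have hA : ∀ (P : ℂ[X]) (S : Finset ℝ), P ≠ 0 → ∀ ε : ℝ, 0 < ε → ∃ η h C₀ : ℝ, 0 < η ∧ 0 < h ∧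
      ∀ (π : CuspidalL m) (c : ℝ → ℂ) (T : ℝ), (∀ l ∈ S, ‖c l‖ ≤ B) → C₀ ≤ Real.log (Ct π T) →
      AM (F π P S c) (α - η) h T (η * Real.log (Ct π T)) →
      ‖L π (⟨1 - α, T⟩ : ℂ)‖ ≤ Real.exp (ε * Real.log (Ct π T)) := by
    intro P S hP ε hε
    obtain ⟨η, h, C₀, hη, hh, H⟩ := few_L hm P hP S B α ε hB hα0 hα hε
    exact ⟨η, h, C₀, hη, hh, fun π c T hc hC hZ => H π.N π.μ π.Λ (ob π) c T hc hC hZ⟩
  have hBB : ∀ (P : ℂ[X]) (S : Finset ℝ), P ≠ 0 → ∀ ε : ℝ, 0 < ε → ∃ η h C₀ : ℝ, 0 < η ∧ 0 < h ∧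
      ∀ (π : CuspidalL m) (c : ℝ → ℂ) (T : ℝ), (∀ l ∈ S, ‖c l‖ ≤ B) → C₀ ≤ Real.log (Ct π T) →
      (∀ t : ℝ, |t - T| ≤ h → ‖L π (⟨1 - α, t⟩ : ℂ)‖ ≤ Real.exp (η * Real.log (Ct π t))) →
      AtMost (F π P S c) (α - ε) 1 T (ε * Real.log (Ct π T)) := by
    intro P S hP ε hε
    obtain ⟨η, h, C₀, hη, hh, H⟩ := L_few hm P hP S B α ε hB hα0 hα hε
    obtain ⟨C1, H1⟩ := F_ne hm P hP S B hB
    exact ⟨η, h, max C₀ C1, hη, hh, fun π c T hc hC hZ =>
      ⟨H1 π.N π.μ π.Λ (ob π) c T hc ((le_max_right _ _).trans hC),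
        H π.N π.μ π.Λ (ob π) c T hc ((le_max_left _ _).trans hC) hZ⟩⟩
  refine ⟨fun ε hε => ?_, fun ε hε => ?_, fun ε hε => ?_, fun Fam c hc => ?_, fun ε hε => ?_, fun Fam c hc => ?_⟩
  · obtain ⟨η, h, C₀, hη, hh, H⟩ := hA P S hP ε hε
    refine ⟨η, h, Real.exp C₀, hη, fun π c T hc hC hZ => ?_⟩
    rw [rpow_exp (Ct_one π T), pt]
    exact H π c T hc (log_ge π hC) hZ.2
  · obtain ⟨η, h, C₀, hη, hh, H⟩ := hBB P S hP ε hε
    refine ⟨η, h, Real.exp C₀, hη, fun π c T hc hC hv => H π c T hc (log_ge π hC) fun t ht => ?_⟩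
    have := hv t ht
    rwa [rpow_exp (Ct_one π t), pt] at this
  · obtain ⟨η1, h1, C1, hη1, hh1, H1⟩ := hBB Q R hQ ε hε
    obtain ⟨η2, h2, C2, hη2, hh2, H2⟩ := hA P S hP η1 hη1
    obtain ⟨k, hk⟩ : ∃ k : ℝ, k = m * Real.log (1 + h1) := ⟨_, rfl⟩
    have hm0 : (0 : ℝ) ≤ m := Nat.cast_nonneg m
    have hk0 : 0 ≤ k := by rw [hk]; exact mul_nonneg hm0 (Real.log_nonneg (by linarith))
    refine ⟨η2 / 2, h2 + h1, Real.exp (max C1 (max C2 1 + 2 * k)), by positivity,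
      fun π c d T hc hd hC hZ => ?_⟩
    have hC' := log_ge π hC
    have hCb := (le_max_right _ _).trans hC'
    have hC2 := le_max_left C2 1
    have hC1' := le_max_right C2 1
    refine H1 π d T hd ((le_max_left _ _).trans hC') fun t ht => H2 π c t hc ?_ ?_
    · have h3 := near π hh1.le (y := T) (T := t) ht
      rw [← hk] at h3
      linarith
    · have h3 := near π hh1.le (y := T) (T := t) ht
      rw [← hk] at h3
      refine AM.mono hZ.2 (by linarith) (by linarith) ?_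
      have h4 : Real.log (Ct π T) ≤ 2 * Real.log (Ct π t) := by linarith
      calc η2 / 2 * Real.log (Ct π T) ≤ η2 / 2 * (2 * Real.log (Ct π t)) :=
            mul_le_mul_of_nonneg_left h4 (by positivity)
        _ = _ := by ring
  · rw [lind_iff hm Fam (by linarith) (by linarith)]
    constructor
    · intro h ε hε
      obtain ⟨η, W, C0, hη, hW, H⟩ := hBB P S hP ε hε
      obtain ⟨C1, hC1⟩ := h η hη
      refine ⟨Real.exp (max C0 (C1 + m * Real.log (1 + W))), fun π hπ T hC => ?_⟩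
      have hC' := log_ge π hC
      refine H π (c π) T (hc π) ((le_max_left _ _).trans hC') fun t ht => hC1 π hπ t ?_
      have h2 := near π hW.le ht
      have h3 := (le_max_right C0 (C1 + m * Real.log (1 + W))).trans hC'
      linarith
    · intro h κ hκ
      obtain ⟨η, W, C0, hη, hW, H⟩ := hA P S hP κ hκ
      obtain ⟨n, hn⟩ := exists_nat_ge W
      have hn0 : (0 : ℝ) ≤ n := Nat.cast_nonneg n
      obtain ⟨k, hk⟩ : ∃ k : ℝ, k = m * Real.log (1 + (n : ℝ)) := ⟨_, rfl⟩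
      have hm0 : (0 : ℝ) ≤ m := Nat.cast_nonneg m
      have hk0 : 0 ≤ k := by rw [hk]; exact mul_nonneg hm0 (Real.log_nonneg (by linarith))
      obtain ⟨C1, hC1⟩ := h (min η (η / (2 * (n + 1)))) (lt_min hη (by positivity))
      refine ⟨max C0 (Real.log (max C1 1) + k), fun π hπ T hC => ?_⟩
      refine H π (c π) T (hc π) ((le_max_left _ _).trans hC) ?_
      have hC2 := (le_max_right C0 (Real.log (max C1 1) + k)).trans hC
      have hlog1 : 0 ≤ Real.log (max C1 1) := Real.log_nonneg (le_max_right _ _)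
      have hcov := AM_cover (G := F π P S (c π)) (a := α - η) (T := T) (h := W)
        (x := η / (2 * (n + 1)) * (2 * Real.log (Ct π T))) n hn (fun t ht => by
        have h2 := near π hn0 ht
        have h2' := near π hn0 (y := t) (T := T) (by rw [abs_sub_comm]; exact ht)
        rw [← hk] at h2 h2'
        refine AM.mono (hC1 π hπ t (ge_of_log π (by linarith))).2 (by linarith [min_le_left η (η / (2 * (n + 1)))])
          (by rw [sub_self, abs_zero]; linarith) ?_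
        calc min η (η / (2 * (n + 1))) * Real.log (Ct π t) ≤ η / (2 * (n + 1)) * Real.log (Ct π t) :=
              mul_le_mul_of_nonneg_right (min_le_right _ _) (Real.log_nonneg (Ct_one π t))
          _ ≤ _ := mul_le_mul_of_nonneg_left (by linarith) (by positivity))
      refine AM.mono hcov le_rfl (by rw [sub_self, abs_zero]; linarith) (le_of_eq ?_)
      field_simp
  · obtain ⟨X, -, H⟩ := shadow_L hm P Q hP hQ S R B α ε hB hα hε
    exact ⟨X, fun π c d hc hd ρ hfar hρ h1 h2 => H π.N π.μ π.Λ (ob π) c d hc hd ρ hfar hρ h1 h2⟩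
  · have key := both hm P hP S B α hB hα (ι := {π : CuspidalL m // Fam π}) (fun π => π.1.N) (fun π => π.1.μ)
      (fun π => π.1.Λ) (fun π => ob π.1) (fun π => c π.1) (fun π => hc π.1)
    constructor
    · intro h ε hε
      obtain ⟨X, hX⟩ := key.1 (fun ε hε => by
        obtain ⟨X, hX⟩ := h ε hε
        exact ⟨X, fun π ρ => hX π.1 π.2 ρ⟩) ε hε
      exact ⟨X, fun π hπ ρ => hX ⟨π, hπ⟩ ρ⟩
    · intro h ε hε
      obtain ⟨X, hX⟩ := key.2 (fun ε hε => by
        obtain ⟨X, hX⟩ := h ε hε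
        exact ⟨X, fun π ρ => hX π.1 π.2 ρ⟩) ε hε
      exact ⟨X, fun π hπ ρ => hX ⟨π, hπ⟩ ρ⟩

end Pool.Agent.Results.MP_52e316_nt.LeftZerosGLm
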