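import Pool.Agent.Q270.SL.G

/-!
# The size of `L(1/2 + iT, π)` in terms of the zeros near height `T`, uniformly in all cuspidal `π` of `GL(m)`

`π` runs through the L-functions of cuspidal automorphic representations of `GL_m(𝔸_ℚ)` (`CuspidalL m`),
`C_π(T) = N ∏ (1 + |i T - μ_j|)` is the analytic conductor at the height `T`.  Let

  `S_W(π, T) = ∑ log |cot(π (ρ - 1/2 - iT) / 2)|`,

the sum over the zeros `ρ` of `Λ(s, π)` with `|Im ρ - T| ≤ W`, with multiplicity.  (For a zero `1/2 + i γ` on the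
critical line the term is `log coth(π |γ - T| / 2)`; for a zero on the edge of the critical strip it is `0`.)

Theorem (strip law).  For every `ε > 0` there is `W₀` such that for every `W ≥ W₀`, as `C_π(T) → ∞`, uniformly in `π`
and `T` with `Λ(1/2 + iT, π) ≠ 0`,

  `log |L(1/2 + iT, π)| = (1/4) log C_π(T) - S_W(π, T) + O(ε log C_π(T))`.

So the exponent of `|L(1/2 + iT, π)|` is determined by the zeros within a bounded distance of `T`, at each point.
Consequences: for every set `P` of `π` the Grand Lindelof Hypothesis for `P` is equivalent to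
`S_W(π, T) ≥ (1/4 - o(1)) log C_π(T)`, and the bound `L(1/2 + iT, π) ≪ C_π(T)^(θ + o(1))` to
`S_W(π, T) ≥ (1/4 - θ - o(1)) log C_π(T)`.

Idea: Jensen's formula in a strip `|Re s - 1/2| ≤ b`, `b > 1/2`, mapped to a disc; for the upper bound this is the
method of Heath-Brown and of Soundararajan and Thorner.  For the lower bound the ends of the strip are controlled by
the Poisson-Jensen inequality at two auxiliary points near the ends of the arc; then `b → 1/2` by a comparison of the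
kernels for different `b`.
-/

set_option autoImplicit false

open Complex
open scoped ComplexConjugate

namespace Pool.Agent.Results.MP_52e316_nt.StripLaw

/-- Analytic data of a cuspidal automorphic representation of `GL_m(𝔸_ℚ)` (not the trivial one for
`m = 1`), normalised as in the problem: conductor `N`, archimedean parameters `μ_j` with
`Re μ_j ≤ 1/2 - 1/(m² + 1)` (Luo-Rudnick-Sarnak, Müller-Speh) and
`∑ Im μ_j = 0` (the central character is trivial on the positive reals), Satake parameters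
`|α_j(p)| ≤ √p`, root number `ε`, and the entire completed L-function `Λ` (gamma factors times Euler product
for `Re s > 3/2`) with the functional equation, finite order in vertical strips and no zeros in
`Re s > 1` (all known: Godement-Jacquet, Jacquet-Shalika). -/
structure CuspidalL (m : ℕ) where
  /-- the conductor -/
  N : ℝ
  /-- the archimedean parameters -/
  μ : Fin m → ℂ
  /-- the Satake parameters -/
  α : Fin m → ℕ → ℂ
  /-- the root number -/
  ε : ℂ
  /-- the completed L-function -/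
  Λ : ℂ → ℂ
  one_le : 1 ≤ N
  re_le : ∀ j, (μ j).re ≤ 1 / 2 - 1 / ((m : ℝ) ^ 2 + 1)
  normalised : ∑ j, (μ j).im = 0
  norm_le : ∀ j, ∀ p : ℕ, p.Prime → ‖α j p‖ ≤ Real.sqrt p
  norm_eq : ‖ε‖ = 1
  entire : Differentiable ℂ Λ
  euler : ∀ s : ℂ, 3 / 2 < s.re → Λ s = (∏ j, Gammaℝ (s - μ j)) *
    ∏' p : Nat.Primes, ∏ j, (1 - α j p * (p : ℂ) ^ (-s))⁻¹
  fe : ∀ s : ℂ, Λ s = ε * (N : ℂ) ^ (1 / 2 - s) * conj (Λ (1 - conj s))
  bdd : ∀ a b : ℝ, ∃ M, ∀ s : ℂ, a ≤ s.re → s.re ≤ b → ‖Λ s‖ ≤ Real.exp (M * (1 + |s.im|))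
  ne_zero : ∀ s : ℂ, 1 < s.re → Λ s ≠ 0

variable {m : ℕ}

/-- The L-function `L(s, π) = Λ(s, π) / ∏ Γ_ℝ(s - μ_j)`. -/
noncomputable def L (π : CuspidalL m) (s : ℂ) : ℂ := π.Λ s * ∏ j, (Gammaℝ (s - π.μ j))⁻¹

/-- The analytic conductor `C_π = N ∏ (1 + |μ_j|)`. -/
noncomputable def C (π : CuspidalL m) : ℝ := π.N * ∏ j, (1 + ‖π.μ j‖)

/-- The analytic conductor at the height `t`: `C_π(t) = N ∏ (1 + |i t - μ_j|)`. -/
noncomputable def Ct (π : CuspidalL m) (t : ℝ) : ℝ := π.N * ∏ j, (1 + ‖(t : ℂ) * I - π.μ j‖)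

/-- The Grand Lindelof Hypothesis for the `π` in `P`. -/
def GLH (P : CuspidalL m → Prop) : Prop :=
  ∀ ε : ℝ, 0 < ε → ∃ B : ℝ, ∀ π : CuspidalL m, P π → ∀ t : ℝ,
    ‖L π (1 / 2 + (t : ℂ) * I)‖ ≤ B * ((1 + |t|) * C π) ^ ε

/-- The exponent `θ`, in terms of the analytic conductor at height `t`, holds on the critical line for the `π` in
`P`. -/
def Exponent (P : CuspidalL m → Prop) (θ : ℝ) : Prop :=
  ∀ ε : ℝ, 0 < ε → ∃ B : ℝ, ∀ π : CuspidalL m, P π → ∀ t : ℝ,
    ‖L π (1 / 2 + (t : ℂ) * I)‖ ≤ B * Ct π t ^ (θ + ε)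

/-- The zeros of `Λ(s, π)` with `|Im s - T| ≤ W`. -/
def zeros (π : CuspidalL m) (T W : ℝ) : Set ℂ := {s : ℂ | π.Λ s = 0 ∧ |s.im - T| ≤ W}

/-- The sum of `log |cot(π (ρ - 1/2 - iT) / 2)|` over the zeros `ρ` of `Λ(s, π)` with `|Im ρ - T| ≤ W`, with
multiplicity. -/
noncomputable def S (π : CuspidalL m) (T W : ℝ) : ℝ :=
  ∑ᶠ ρ ∈ zeros π T W, (analyticOrderNatAt π.Λ ρ : ℝ) *
    Real.log ‖Complex.cot ((Real.pi : ℂ) / 2 * (ρ - (1 / 2 + (T : ℂ) * I)))‖

open Pool.Agent.W169.HF Q270GD Q270SL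

lemma re_le' (π : CuspidalL m) (j : Fin m) : (π.μ j).re ≤ 1 / 2 := by
  have h1 := π.re_le j
  have h2 : 0 ≤ 1 / ((m : ℝ) ^ 2 + 1) := by positivity
  linarith

lemma std (π : CuspidalL m) : Std π.N π.μ π.α π.ε π.Λ :=
  ⟨{ one_le := π.one_le
     re_le := re_le' π
     norm_le := fun j p hp => by
       rw [← Real.sqrt_eq_rpow]
       exact π.norm_le j p hp
     norm_eq := π.norm_eq
     entire := π.entire
     euler := fun s hs => π.euler s (by linarith)
     fe := π.fe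
     bdd := π.bdd }, π.ne_zero⟩

lemma dr (π : CuspidalL m) : Dr π.N π.μ π.Λ := ⟨⟨π.α, π.ε, std π⟩, π.re_le⟩

lemma rpow_exp {x : ℝ} (hx : 1 ≤ x) (a : ℝ) : x ^ a = Real.exp (a * Real.log x) := by
  rw [Real.rpow_def_of_pos (by linarith), mul_comm]

lemma Ct_one (π : CuspidalL m) (t : ℝ) : 1 ≤ Ct π t := cnd_pos π.one_le π.μ t

lemma log_ge (π : CuspidalL m) {c t : ℝ} (h : Real.exp c ≤ Ct π t) : c ≤ Real.log (Ct π t) := by
  have := Real.log_le_log (Real.exp_pos _) h
  rwa [Real.log_exp] at this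

lemma C_one (π : CuspidalL m) (t : ℝ) : 1 ≤ (1 + |t|) * C π := by
  have h1 : 1 ≤ ∏ j, (1 + ‖π.μ j‖) := by
    refine Finset.prod_induction _ (fun x => (1 : ℝ) ≤ x) (fun a b ha hb => ?_) le_rfl fun j _ => ?_
    · nlinarith
    · linarith [norm_nonneg (π.μ j)]
  have h2 : 1 ≤ C π := by
    unfold C
    have := π.one_le
    nlinarith
  have := abs_nonneg t
  nlinarith

/-- the exponent in terms of logarithms -/
lemma exp_iff (hm : 1 ≤ m) (P : CuspidalL m → Prop) {θ : ℝ} (hθ : 0 ≤ θ) : Exponent P θ ↔ ∀ κ : ℝ, 0 < κ → ∃ C₀ : ℝ,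
    ∀ π : CuspidalL m, P π → ∀ t : ℝ, C₀ ≤ Real.log (Ct π t) →
      ‖L π (1 / 2 + (t : ℂ) * I)‖ ≤ Real.exp ((θ + κ) * Real.log (Ct π t)) := by
  constructor
  · intro h κ hκ
    obtain ⟨B, HB⟩ := h (κ / 2) (half_pos hκ)
    refine ⟨2 * Real.log (max B 1) / κ, fun π hP t hC => ?_⟩
    have hB : 0 < max B 1 := lt_max_of_lt_right one_pos
    refine (HB π hP t).trans ?_
    rw [rpow_exp (Ct_one π t)]
    have h0 : B * Real.exp ((θ + κ / 2) * Real.log (Ct π t)) ≤
        Real.exp (Real.log (max B 1)) * Real.exp ((θ + κ / 2) * Real.log (Ct π t)) := by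
      rw [Real.exp_log hB]
      exact mul_le_mul_of_nonneg_right (le_max_left _ _) (Real.exp_pos _).le
    refine h0.trans ?_
    rw [← Real.exp_add]
    apply Real.exp_le_exp.2
    rw [div_le_iff₀ hκ] at hC
    linarith
  · intro h ε hε
    obtain ⟨C₀, hC₀⟩ := h ε hε
    obtain ⟨B, HB⟩ := aut_triv m hm
    obtain ⟨C1, hC1⟩ : ∃ C1 : ℝ, C1 = max C₀ 0 := ⟨_, rfl⟩
    have hC10 : 0 ≤ C1 := by rw [hC1]; exact le_max_right _ _
    refine ⟨Real.exp (|B| + C1), fun π hP t => ?_⟩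
    rw [rpow_exp (Ct_one π t), ← Real.exp_add]
    have hlog := Real.log_nonneg (Ct_one π t)
    have h0 : 0 ≤ (θ + ε) * Real.log (Ct π t) := by positivity
    have h3 := le_abs_self B
    rcases le_or_gt C₀ (Real.log (Ct π t)) with h1 | h1
    · refine (hC₀ π hP t h1).trans (Real.exp_le_exp.2 ?_)
      have := abs_nonneg B
      linarith
    · refine (HB π.N π.μ π.α π.ε π.Λ (std π).1 t).trans (Real.exp_le_exp.2 ?_)
      change B + 3 / 4 * Real.log (Ct π t) ≤ _
      have h2 : C₀ ≤ C1 := by rw [hC1]; exact le_max_left _ _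
      linarith

/-- the hypothesis in terms of the conductor at height `t` -/
lemma glh_iff (hm : 1 ≤ m) (P : CuspidalL m → Prop) : GLH P ↔ Exponent P 0 := by
  have hm' : (1 : ℝ) ≤ m := by exact_mod_cast hm
  constructor
  · intro h ε hε
    obtain ⟨B, HB⟩ := h (ε / (m + 2)) (by positivity)
    refine ⟨max B 0, fun π hP t => ?_⟩
    refine (HB π hP t).trans ?_
    rw [zero_add]
    refine mul_le_mul (le_max_left _ _) ?_ (by have := C_one π t; positivity) (le_max_right _ _)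
    rw [rpow_exp (C_one π t), rpow_exp (Ct_one π t)]
    apply Real.exp_le_exp.2
    have h1 := (cnd_norm π.one_le π.μ hm π.normalised t).1
    change Real.log ((1 + |t|) * C π) ≤ (m + 2) * Real.log (Ct π t) at h1
    calc _ ≤ ε / (m + 2) * ((m + 2) * Real.log (Ct π t)) := mul_le_mul_of_nonneg_left h1 (by positivity)
      _ = _ := by field_simp
  · intro h ε hε
    obtain ⟨B, HB⟩ := h (ε / m) (by positivity)
    refine ⟨max B 0, fun π hP t => ?_⟩
    refine (HB π hP t).trans ?_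
    rw [zero_add]
    refine mul_le_mul (le_max_left _ _) ?_ (by have := Ct_one π t; positivity) (le_max_right _ _)
    rw [rpow_exp (C_one π t), rpow_exp (Ct_one π t)]
    apply Real.exp_le_exp.2
    have h2 := (cnd_norm π.one_le π.μ hm π.normalised t).2
    change Real.log (Ct π t) ≤ (m : ℝ) * Real.log ((1 + |t|) * C π) at h2
    calc ε / m * Real.log (Ct π t) ≤ ε / m * (m * Real.log ((1 + |t|) * C π)) :=
          mul_le_mul_of_nonneg_left h2 (by positivity)
      _ = _ := by field_simp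

lemma S_eq (π : CuspidalL m) (T W : ℝ) : S π T W = SW π.Λ T W := by
  unfold S SW
  refine finsum_congr fun s => ?_
  refine finsum_congr fun _ => ?_
  congr 1
  unfold wt
  have e : ((Real.pi / (4 * (1 / 2)) : ℝ) : ℂ) = (Real.pi : ℂ) / 2 := by
    push_cast
    ring
  rw [e, ← Complex.tan_inv_eq_cot, norm_inv, Real.log_inv]

theorem result (hm : 1 ≤ m) :
    (∀ ε : ℝ, 0 < ε → ∃ W₀ : ℝ, ∀ W : ℝ, W₀ ≤ W → ∃ C₀ : ℝ, ∀ (π : CuspidalL m) (T : ℝ), C₀ ≤ Ct π T →
      (zeros π T W).Finite ∧ (π.Λ (1 / 2 + (T : ℂ) * I) ≠ 0 →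
        |Real.log ‖L π (1 / 2 + (T : ℂ) * I)‖ - (1 / 4 * Real.log (Ct π T) - S π T W)| ≤
          ε * Real.log (Ct π T))) ∧
    (∀ P : CuspidalL m → Prop, GLH P ↔ ∀ ε : ℝ, 0 < ε → ∃ W C₀ : ℝ, ∀ π : CuspidalL m, P π → ∀ T : ℝ,
      C₀ ≤ Ct π T → π.Λ (1 / 2 + (T : ℂ) * I) ≠ 0 → (1 / 4 - ε) * Real.log (Ct π T) ≤ S π T W) ∧
    (∀ (P : CuspidalL m → Prop) (θ : ℝ), 0 ≤ θ → (Exponent P θ ↔ ∀ ε : ℝ, 0 < ε → ∃ W C₀ : ℝ,
      ∀ π : CuspidalL m, P π → ∀ T : ℝ, C₀ ≤ Ct π T → π.Λ (1 / 2 + (T : ℂ) * I) ≠ 0 →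
        (1 / 4 - θ - ε) * Real.log (Ct π T) ≤ S π T W)) := by
  have hm' : (1 : ℝ) ≤ m := by exact_mod_cast hm
  have key : ∀ (P : CuspidalL m → Prop) (θ : ℝ), 0 ≤ θ → (Exponent P θ ↔ ∀ ε : ℝ, 0 < ε → ∃ W C₀ : ℝ,
      ∀ π : CuspidalL m, P π → ∀ T : ℝ, C₀ ≤ Ct π T → π.Λ (1 / 2 + (T : ℂ) * I) ≠ 0 →
        (1 / 4 - θ - ε) * Real.log (Ct π T) ≤ S π T W) := by
    intro P θ hθ
    rw [exp_iff hm P hθ]
    constructor
    · intro h ε hε
      obtain ⟨C1, hC1⟩ := h (ε / 2) (half_pos hε)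
      obtain ⟨Y0, hY0, HY⟩ := strip_law m hm (half_pos hε)
      obtain ⟨C2, hC2, H⟩ := HY Y0 le_rfl
      refine ⟨Y0, Real.exp (max C1 C2), fun π hP T hT h0 => ?_⟩
      have hT' := log_ge π hT
      have h1 := hC1 π hP T ((le_max_left _ _).trans hT')
      have h2 := (abs_le.1 (H π.N π.μ π.Λ (dr π) T ((le_max_right _ _).trans hT') h0)).1
      obtain ⟨hLp, -⟩ := LL_cmp hm π.one_le π.re_le π.Λ T h0
      have h3 : Real.log ‖LL π.μ π.Λ (1 / 2 + (T : ℂ) * I)‖ ≤ (θ + ε / 2) * Real.log (Ct π T) := by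
        rw [Real.log_le_iff_le_exp hLp]
        exact h1
      rw [S_eq]
      change -(ε / 2 * Real.log (Ct π T)) ≤ Real.log ‖LL π.μ π.Λ (1 / 2 + (T : ℂ) * I)‖ -
        1 / 4 * Real.log (Ct π T) + _ at h2
      linarith
    · intro h κ hκ
      obtain ⟨W, C1, hC1⟩ := h (κ / 2) (half_pos hκ)
      obtain ⟨Y0, hY0, HY⟩ := strip_law m hm (half_pos hκ)
      obtain ⟨C2, hC2, H⟩ := HY (max Y0 W) (le_max_left _ _)
      refine ⟨max (Real.log (max C1 1)) C2, fun π hP T hT => ?_⟩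
      have hT1 : C1 ≤ Ct π T := by
        have h1 : 0 < max C1 1 := lt_max_of_lt_right one_pos
        have h2 := Ct_one π T
        exact (le_max_left _ _).trans ((Real.log_le_log_iff h1 (by linarith)).1 ((le_max_left _ _).trans hT))
      have hT2 : C2 ≤ Real.log (Ct π T) := (le_max_right _ _).trans hT
      by_cases h0 : π.Λ (1 / 2 + (T : ℂ) * I) = 0
      · have : L π (1 / 2 + (T : ℂ) * I) = 0 := by
          unfold L
          rw [h0, zero_mul]
        rw [this, norm_zero]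
        exact (Real.exp_pos _).le
      have h1 := hC1 π hP T hT1 h0
      rw [S_eq] at h1
      have h2 := (abs_le.1 (H π.N π.μ π.Λ (dr π) T hT2 h0)).2
      obtain ⟨hLp, -⟩ := LL_cmp hm π.one_le π.re_le π.Λ T h0
      -- the sum grows with the window
      have hT14 : 14 * m ≤ Real.log (cnd π.N π.μ T) := hC2.trans hT2
      have h3 : SW π.Λ T W ≤ SW π.Λ T (max Y0 W) := by
        have hD := dr π
        have hfin := ZT_fin hm hD hT14 (max Y0 W)
        have hfin2 := ZT_fin hm hD hT14 W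
        obtain ⟨K, hK, nd, hel⟩ := Dr.nd_ hm hD hT14
        unfold SW
        rw [finsum_mem_eq_finite_toFinset_sum _ hfin2, finsum_mem_eq_finite_toFinset_sum _ hfin]
        refine Finset.sum_le_sum_of_subset_of_nonneg (fun s hs => ?_) fun s hs _ => ?_
        · rw [Set.Finite.mem_toFinset] at hs ⊢
          exact ⟨hs.1, hs.2.trans (le_max_right _ _)⟩
        · rw [Set.Finite.mem_toFinset] at hs
          refine mul_nonneg (Nat.cast_nonneg _) (wt_nonneg le_rfl ?_ ?_)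
          · rw [ZT_eq hm hD hT14] at hs
            obtain ⟨u, hu, rfl⟩ := hs
            rw [add_sub_cancel_left]
            exact nd.zer u ((mem_W nd hK hel).1 hu).1
          · intro h
            rw [sub_eq_zero] at h
            have := hs.1
            rw [h] at this
            exact h0 this
      have h4 : Real.log ‖LL π.μ π.Λ (1 / 2 + (T : ℂ) * I)‖ ≤ (θ + κ) * Real.log (Ct π T) := by
        change Real.log ‖LL π.μ π.Λ (1 / 2 + (T : ℂ) * I)‖ - 1 / 4 * Real.log (Ct π T) + _ ≤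
          κ / 2 * Real.log (Ct π T) at h2
        linarith
      rw [Real.log_le_iff_le_exp hLp] at h4
      exact h4
  refine ⟨fun ε hε => ?_, fun P => ?_, key⟩
  · obtain ⟨Y0, hY0, HY⟩ := strip_law m hm hε
    refine ⟨Y0, fun W hW => ?_⟩
    obtain ⟨C0, hC0, H⟩ := HY W hW
    refine ⟨Real.exp C0, fun π T hT => ?_⟩
    have hT' := log_ge π hT
    refine ⟨ZT_fin hm (dr π) (hC0.trans hT') W, fun h0 => ?_⟩
    have h1 := H π.N π.μ π.Λ (dr π) T hT' h0
    rw [S_eq]
    change |Real.log ‖LL π.μ π.Λ (1 / 2 + (T : ℂ) * I)‖ - (1 / 4 * Real.log (Ct π T) - SW π.Λ T W)| ≤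
      ε * Real.log (Ct π T)
    rw [← sub_add]
    exact h1
  · rw [glh_iff hm P, key P 0 le_rfl]
    simp only [sub_zero]

end Pool.Agent.Results.MP_52e316_nt.StripLaw
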